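import Pool.Agent.Helper34_GG.Path

/-!
# Completely multiplicative functions with values in a filtered abelian group (MP_5f6ee5_nt)

A common form of the rows CHG, TEL, GDB of the squads OPG (odd numbers, step `2`) and LGD (all
positive integers, step `1`), for functions with values in an abelian group `G` with a filtration
`W 0 ⊆ W 1 ⊆ …` (word lengths).
-/

set_option autoImplicit false

namespace Pool.Agent.Helper34_GW

open Finset

variable {G : Type} [CommGroup G]

/-- a filtration by word lengths -/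
structure Fil (W : ℕ → Set G) : Prop where
  one : 1 ∈ W 0
  mul : ∀ {m n : ℕ} {x y : G}, x ∈ W m → y ∈ W n → x * y ∈ W (m + n)
  inv : ∀ {n : ℕ} {x : G}, x ∈ W n → x⁻¹ ∈ W n
  mono : ∀ {m n : ℕ}, m ≤ n → W m ⊆ W n

theorem Fil.div {W : ℕ → Set G} (hW : Fil W) {m n : ℕ} {x y : G} (hx : x ∈ W m) (hy : y ∈ W n) :
    x / y ∈ W (m + n) := by
  rw [div_eq_mul_inv]
  exact hW.mul hx (hW.inv hy)

theorem Fil.prod {W : ℕ → Set G} (hW : Fil W) (J r : ℕ) (x : ℕ → G) (hx : ∀ i < J, x i ∈ W r) :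
    ∏ i ∈ range J, x i ∈ W (J * r) := by
  induction J with
  | zero => simpa using hW.one
  | succ J ih =>
    rw [prod_range_succ, Nat.succ_mul]
    exact hW.mul (ih fun i hi => hx i (by omega)) (hx J (by omega))

/-- a set of admissible integers (the odd ones, `s = 2`, or the positive ones, `s = 1`) -/
structure Adm (A : ℕ → Prop) (s : ℕ) : Prop where
  pos : ∀ n, A n → 0 < n
  mul : ∀ a b, A a → A b → A (a * b)
  odd : ∀ n, Odd n → A n
  step : ∀ n, A n → A (n + s)
  conn : ∀ n n', A n → A n' → n ≤ n' → ∃ j, n' = n + s * j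
  s1 : 1 ≤ s

/-- completely multiplicative on the admissible integers -/
def CMG (A : ℕ → Prop) (f : ℕ → G) : Prop := ∀ a b : ℕ, A a → A b → f (a * b) = f a * f b

theorem CMG.one {A : ℕ → Prop} {s : ℕ} (hA : Adm A s) {f : ℕ → G} (hf : CMG A f) : f 1 = 1 := by
  have := hf 1 1 (hA.odd 1 odd_one) (hA.odd 1 odd_one)
  rw [mul_one] at this
  exact (mul_eq_left.mp this.symm)

open Classical in
/-- the admissible `n` strictly between `x` and `y` with `f n / γ` not in `W 1` -/
noncomputable def NG (A : ℕ → Prop) (W : ℕ → Set G) (f : ℕ → G) (γ : G) (x y : ℕ) : Finset ℕ :=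
  (Finset.Ioo x y).filter (fun n => A n ∧ f n / γ ∉ W 1)

/-- the sum of the numbers of divisors of the elements of `NG` -/
noncomputable def DG (A : ℕ → Prop) (W : ℕ → Set G) (f : ℕ → G) (γ : G) (x y : ℕ) : ℕ :=
  ∑ n ∈ NG A W f γ x y, n.divisors.card

open Classical in
/-- the changes of `f` in `[a, b]` -/
noncomputable def HG (A : ℕ → Prop) (s : ℕ) (W : ℕ → Set G) (f : ℕ → G) (a b : ℕ) : Finset ℕ :=
  (Finset.Icc a b).filter (fun u => A u ∧ f u / f (u + s) ∉ W 2)

/-- a cut: no `v` has both `u v` and `(u + s) v` strictly between `x` and `y` -/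
def Cut (A : ℕ → Prop) (s x y u : ℕ) : Prop := ∀ v : ℕ, A v → x < u * v → y ≤ (u + s) * v

open Classical in
/-- the cuts in `[a, b]` -/
noncomputable def CU (A : ℕ → Prop) (s x y a b : ℕ) : Finset ℕ :=
  (Finset.Icc a b).filter (fun u => A u ∧ Cut A s x y u)

/-- every change is a cut or gives an element of `NG` -/
theorem chg {A : ℕ → Prop} {s : ℕ} (hA : Adm A s) {W : ℕ → Set G} (hW : Fil W) (f : ℕ → G) (γ : G)
    (x y a b : ℕ) (hf : CMG A f) :
    (HG A s W f a b).card ≤ (CU A s x y a b).card + 2 * DG A W f γ x y := by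
  classical
  have hsub : HG A s W f a b ⊆ CU A s x y a b ∪ (NG A W f γ x y).biUnion fun n =>
      n.divisors ∪ n.divisors.image fun d => d - s := by
    intro u hu
    unfold HG at hu
    rw [mem_filter] at hu
    obtain ⟨hab, hodd, hne⟩ := hu
    rw [mem_union]
    by_cases hcut : Cut A s x y u
    · left
      unfold CU
      rw [mem_filter]
      exact ⟨hab, hodd, hcut⟩
    · right
      unfold Cut at hcut
      push Not at hcut
      obtain ⟨v, hv, h1, h2⟩ := hcut
      have hodd2 : A (u + s) := hA.step u hodd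
      have h3 : f (u * v) = f u * f v := hf u v hodd hv
      have h4 : f ((u + s) * v) = f (u + s) * f v := hf (u + s) v hodd2 hv
      have h6 : u * v ≤ (u + s) * v := Nat.mul_le_mul_right v (by omega)
      have ho1 : A (u * v) := hA.mul _ _ hodd hv
      have ho2 : A ((u + s) * v) := hA.mul _ _ hodd2 hv
      have h7 : f (u * v) / γ ∉ W 1 ∨ f ((u + s) * v) / γ ∉ W 1 := by
        by_contra hcon
        push Not at hcon
        apply hne
        have h8 := hW.div hcon.1 hcon.2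
        have e : f (u * v) / γ / (f ((u + s) * v) / γ) = f u / f (u + s) := by
          rw [div_div_div_cancel_right, h3, h4, mul_div_mul_right_eq_div]
        rw [e] at h8
        exact h8
      rw [mem_biUnion]
      rcases h7 with h | h
      · refine ⟨u * v, ?_, ?_⟩
        · unfold NG
          rw [mem_filter, mem_Ioo]
          exact ⟨⟨h1, lt_of_le_of_lt h6 h2⟩, ho1, h⟩
        · rw [mem_union]
          left
          rw [Nat.mem_divisors]
          exact ⟨dvd_mul_right u v, (hA.pos _ ho1).ne'⟩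
      · refine ⟨(u + s) * v, ?_, ?_⟩
        · unfold NG
          rw [mem_filter, mem_Ioo]
          exact ⟨⟨lt_of_lt_of_le h1 h6, h2⟩, ho2, h⟩
        · rw [mem_union]
          right
          rw [mem_image]
          refine ⟨u + s, ?_, by omega⟩
          rw [Nat.mem_divisors]
          exact ⟨dvd_mul_right (u + s) v, (hA.pos _ ho2).ne'⟩
  refine (card_le_card hsub).trans ((card_union_le _ _).trans ?_)
  apply Nat.add_le_add_left
  refine card_biUnion_le.trans ?_
  unfold DG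
  rw [mul_sum]
  apply sum_le_sum
  intro n _
  refine (card_union_le _ _).trans ?_
  have := card_image_le (s := n.divisors) (f := fun d => d - s)
  omega

theorem exists_odd_near (x : ℝ) (hx : 0 ≤ x) : ∃ a : ℕ, Odd a ∧ |(a : ℝ) - x| ≤ 1 := by
  refine ⟨2 * ⌊x / 2⌋₊ + 1, ⟨_, rfl⟩, ?_⟩
  have h1 : (⌊x / 2⌋₊ : ℝ) ≤ x / 2 := Nat.floor_le (by positivity)
  have h2 : x / 2 < ⌊x / 2⌋₊ + 1 := Nat.lt_floor_add_one _
  push_cast
  rw [abs_le]
  constructor <;> linarith

/-- telescoping along the path -/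
theorem tel {A : ℕ → Prop} {s : ℕ} (hA : Adm A s) {W : ℕ → Set G} (hW : Fil W) (R : ℕ)
    (f : ℕ → G) (J H : ℕ) (p q g : ℕ → ℕ) (c : ℕ → ℝ) (Q Y0 : ℝ) (σ : ℕ → G)
    (hf : CMG A f) (hQ : 1 ≤ Q) (hY0 : 0 < Y0) (hpq : ∀ i < J, A (p i) ∧ A (q i))
    (hg : ∀ i ≤ J, A (g i)) (hg0 : g 0 = H) (hgJ : g J = H) (hc0 : c 0 = 1)
    (hcpos : ∀ i ≤ J, 0 < c i) (hc : ∀ i < J, c (i + 1) * q i = c i * p i)
    (hbd : ∀ i < J, (p i : ℝ) * g i ≤ Q ∧ (q i : ℝ) * g (i + 1) ≤ Q)
    (hcl : |c J * H / g J * Y0 - Y0| ≤ Q)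
    (hσ : ∀ i ≤ J, ∀ n : ℕ, A n → |(n : ℝ) - c i * H / g i * Y0| ≤ 4 * Q → f n / σ i ∈ W R) :
    ∏ i ∈ range J, (f (p i) / f (q i)) ∈ W ((J + 1) * (2 * R)) := by
  have hH : A H := hg0 ▸ hg 0 (Nat.zero_le _)
  have hH0 : (0 : ℝ) < (H : ℝ) := by exact_mod_cast hA.pos _ hH
  obtain ⟨T, hT⟩ : ∃ T : ℕ → G, ∀ i, T i = σ i * f (g i) := ⟨fun i => σ i * f (g i), fun _ => rfl⟩
  obtain ⟨δ, hδ⟩ : ∃ δ : ℕ → G, ∀ i, δ i = (f (p i) / f (q i)) / (T (i + 1) / T i) :=
    ⟨fun i => (f (p i) / f (q i)) / (T (i + 1) / T i), fun _ => rfl⟩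
  have hstep : ∀ i < J, δ i ∈ W (2 * R) := by
    intro i hi
    have hp := (hpq i hi).1
    have hq := (hpq i hi).2
    have hgi := hg i hi.le
    have hgi' := hg (i + 1) hi
    have p0 : (0 : ℝ) < p i := by exact_mod_cast hA.pos _ hp
    have q0 : (0 : ℝ) < q i := by exact_mod_cast hA.pos _ hq
    have g0 : (0 : ℝ) < g i := by exact_mod_cast hA.pos _ hgi
    have g0' : (0 : ℝ) < g (i + 1) := by exact_mod_cast hA.pos _ hgi'
    have c0 := hcpos i hi.le
    have c0' := hcpos (i + 1) hi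
    have hci := hc i hi
    have hb := hbd i hi
    set y : ℝ := c i * H / g i * Y0 with hy
    set y' : ℝ := c (i + 1) * H / g (i + 1) * Y0 with hy'
    have hypos : 0 < y := by positivity
    have hypos' : 0 < y' := by positivity
    have hrel : y' * (q i * g (i + 1)) = y * (p i * g i) := by
      have e1 : y' * (q i * g (i + 1)) = (c (i + 1) * q i) * H * Y0 := by
        rw [hy']; field_simp
      have e2 : y * (p i * g i) = (c i * p i) * H * Y0 := by
        rw [hy]; field_simp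
      rw [e1, e2, hci]
    obtain ⟨a, ha0, hax⟩ := exists_odd_near (y / (q i * g (i + 1))) (by positivity)
    have ha : A a := hA.odd a ha0
    have hx' : y' / (p i * g i) = y / (q i * g (i + 1)) := by
      rw [div_eq_div_iff (by positivity) (by positivity), hrel]
    have k1 : f (a * (q i * g (i + 1))) / σ i ∈ W R := by
      refine hσ i hi.le _ (hA.mul _ _ ha (hA.mul _ _ hq hgi')) ?_
      rw [← hy]
      push_cast
      have : (a : ℝ) * (q i * g (i + 1)) - y =
          (q i * g (i + 1)) * (a - y / (q i * g (i + 1))) := by field_simp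
      rw [this, abs_mul, abs_of_pos (by positivity : (0 : ℝ) < q i * g (i + 1))]
      calc (q i : ℝ) * g (i + 1) * |(a : ℝ) - y / (q i * g (i + 1))|
          ≤ Q * 1 := mul_le_mul hb.2 hax (abs_nonneg _) (by linarith)
        _ ≤ 4 * Q := by linarith
    have k2 : f (a * (p i * g i)) / σ (i + 1) ∈ W R := by
      refine hσ (i + 1) hi _ (hA.mul _ _ ha (hA.mul _ _ hp hgi)) ?_
      rw [← hy']
      push_cast
      have : (a : ℝ) * (p i * g i) - y' =
          (p i * g i) * (a - y' / (p i * g i)) := by field_simp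
      rw [this, abs_mul, abs_of_pos (by positivity : (0 : ℝ) < p i * g i), hx']
      calc (p i : ℝ) * g i * |(a : ℝ) - y / (q i * g (i + 1))|
          ≤ Q * 1 := mul_le_mul hb.1 hax (abs_nonneg _) (by linarith)
        _ ≤ 4 * Q := by linarith
    have e : δ i = (f (a * (p i * g i)) / σ (i + 1)) / (f (a * (q i * g (i + 1))) / σ i) := by
      rw [hδ, hT, hT, hf _ _ ha (hA.mul _ _ hq hgi'), hf _ _ ha (hA.mul _ _ hp hgi),
        hf _ _ hq hgi', hf _ _ hp hgi, div_div_div_eq, div_div_div_eq,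
        div_eq_div_iff_mul_eq_mul]
      ac_rfl
    rw [e, two_mul]
    exact hW.div k2 k1
  have hprod : ∏ i ∈ range J, (f (p i) / f (q i)) =
      (∏ i ∈ range J, δ i) * (T J / T 0) := by
    rw [← Finset.prod_range_div T J, ← Finset.prod_mul_distrib]
    refine prod_congr rfl fun i _ => ?_
    rw [hδ, div_mul_cancel]
  rw [hprod, Nat.succ_mul]
  apply hW.mul (hW.prod J (2 * R) δ hstep)
  obtain ⟨n, hn0, hnx⟩ := exists_odd_near Y0 hY0.le
  have hn : A n := hA.odd n hn0
  have e0 : c 0 * H / g 0 * Y0 = Y0 := by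
    rw [hc0, hg0]; field_simp
  have a1 : f n / σ 0 ∈ W R := by
    refine hσ 0 (Nat.zero_le _) n hn ?_
    rw [e0]
    linarith
  have a2 : f n / σ J ∈ W R := by
    refine hσ J le_rfl n hn ?_
    have : (n : ℝ) - c J * H / g J * Y0 = ((n : ℝ) - Y0) - (c J * H / g J * Y0 - Y0) := by ring
    rw [this]
    calc |((n : ℝ) - Y0) - (c J * H / g J * Y0 - Y0)|
        ≤ |(n : ℝ) - Y0| + |c J * H / g J * Y0 - Y0| := abs_sub _ _
      _ ≤ 4 * Q := by linarith
  have e : T J / T 0 = (f n / σ 0) / (f n / σ J) := by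
    rw [hT, hT, hg0, hgJ, mul_div_mul_right_eq_div, div_div_div_cancel_left]
  rw [e, two_mul]
  exact hW.div a1 a2

/-- no change near `Y` -/
theorem gdb {A : ℕ → Prop} {s : ℕ} (hA : Adm A s) {W : ℕ → Set G} (hW : Fil W) (R : ℕ)
    (f : ℕ → G) (a b : ℕ) (Q Y : ℝ) (ha : (a : ℝ) ≤ Y - 4 * Q) (hb : Y + 4 * Q ≤ b)
    (hR : 16 * Q ≤ R)
    (hch : ∀ u ∈ HG A s W f a b, 4 * Q < |(u : ℝ) - Y|) :
    ∃ σ : G, ∀ n : ℕ, A n → |(n : ℝ) - Y| ≤ 4 * Q → f n / σ ∈ W R := by
  classical
  have key : ∀ (j n : ℕ), A n → |(n : ℝ) - Y| ≤ 4 * Q →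
      |((n + s * j : ℕ) : ℝ) - Y| ≤ 4 * Q → A (n + s * j) ∧ f n / f (n + s * j) ∈ W (j * 2) := by
    intro j
    induction j with
    | zero =>
      intro n hn _ _
      refine ⟨hn, ?_⟩
      rw [Nat.mul_zero, Nat.add_zero, div_self', Nat.zero_mul]
      exact hW.one
    | succ j ih =>
      intro n hn h1 h2
      have hs0 : (0 : ℝ) ≤ (s : ℝ) := Nat.cast_nonneg s
      have hj : (0 : ℝ) ≤ (s : ℝ) * (j : ℝ) := mul_nonneg hs0 (Nat.cast_nonneg j)
      have h3 : |((n + s * j : ℕ) : ℝ) - Y| ≤ 4 * Q := by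
        rw [abs_le] at h1 h2 ⊢
        push_cast at h2 ⊢
        constructor
        · linarith [h1.1]
        · have := h2.2
          have e : (s : ℝ) * ((j : ℝ) + 1) = s * j + s := by ring
          rw [e] at this
          linarith
      obtain ⟨hAj, hfj⟩ := ih n hn h1 h3
      have e1 : n + s * (j + 1) = n + s * j + s := by ring
      rw [e1]
      refine ⟨hA.step _ hAj, ?_⟩
      have h9 : f (n + s * j) / f (n + s * j + s) ∈ W 2 := by
        by_contra hne
        have hmem : n + s * j ∈ HG A s W f a b := by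
          unfold HG
          rw [Finset.mem_filter, Finset.mem_Icc]
          have h4 := abs_le.mp h3
          refine ⟨⟨?_, ?_⟩, hAj, hne⟩
          · have h5 : (a : ℝ) ≤ ((n + s * j : ℕ) : ℝ) := by linarith [h4.1]
            exact_mod_cast h5
          · have h5 : ((n + s * j : ℕ) : ℝ) ≤ (b : ℝ) := by linarith [h4.2]
            exact_mod_cast h5
        have h6 := hch _ hmem
        linarith
      rw [← div_mul_div_cancel (f n) (f (n + s * j)), Nat.succ_mul]
      exact hW.mul hfj h9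
  have key2 : ∀ n n' : ℕ, A n → A n' → n ≤ n' → |(n : ℝ) - Y| ≤ 4 * Q →
      |(n' : ℝ) - Y| ≤ 4 * Q → f n / f n' ∈ W R := by
    intro n n' hn hn' hle h h'
    obtain ⟨j, hj⟩ := hA.conn n n' hn hn' hle
    subst hj
    obtain ⟨_, h2⟩ := key j n hn h h'
    refine hW.mono ?_ h2
    have h3 := abs_le.mp h
    have h4 := abs_le.mp h'
    push_cast at h4
    have hs1 : (1 : ℝ) ≤ (s : ℝ) := by exact_mod_cast hA.s1
    have hj0 : (0 : ℝ) ≤ (j : ℝ) := Nat.cast_nonneg j
    have h5 : ((j * 2 : ℕ) : ℝ) ≤ (R : ℝ) := by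
      push_cast
      nlinarith [h3.1, h3.2, h4.1, h4.2]
    exact_mod_cast h5
  by_cases hex : ∃ n0 : ℕ, A n0 ∧ |(n0 : ℝ) - Y| ≤ 4 * Q
  · obtain ⟨n0, hn0, h0⟩ := hex
    refine ⟨f n0, ?_⟩
    intro n hn h
    rcases le_total n n0 with hle | hle
    · exact key2 n n0 hn hn0 hle h h0
    · rw [← inv_div]
      exact hW.inv (key2 n0 n hn0 hn hle h0 h)
  · exact ⟨1, fun n hn h => absurd ⟨n, hn, h⟩ hex⟩

end Pool.Agent.Helper34_GW
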