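import Pool.Agent.Helper34_GW.Ma
import Pool.Agent.Helper34_GL.Gen

/-!
# Assembly: few divisors, word lengths, the two kinds of intervals
-/

set_option autoImplicit false

namespace Pool.Agent.Helper34_GW

open Finset Pool.Agent.OPH

/-! ### Few divisors -/

theorem few (V N : Finset ℕ) (k L : ℝ) (C D : ℕ) (hL : 2 ≤ L) (hk : 0 ≤ k) (hN : N ⊆ V)
    (h1 : k ≤ L ^ C * N.card) (h2 : ∑ n ∈ V, (n.divisors.card : ℝ) ^ 2 ≤ k * L ^ D) :
    k ≤ L ^ (C + 1) * (N.filter (fun n => (n.divisors.card : ℝ) ≤ L ^ (C + D + 1))).card := by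
  classical
  obtain ⟨E, hE⟩ : ∃ E, E = C + D + 1 := ⟨_, rfl⟩
  rw [← hE]
  have hL0 : (0 : ℝ) < L := by linarith
  have hL1 : (1 : ℝ) ≤ L := by linarith
  have hcard : (N.card : ℝ) = (N.filter (fun n => (n.divisors.card : ℝ) ≤ L ^ E)).card +
      (N.filter (fun n => ¬ (n.divisors.card : ℝ) ≤ L ^ E)).card := by
    have := Finset.card_filter_add_card_filter_not (s := N)
      (fun n => (n.divisors.card : ℝ) ≤ L ^ E)
    exact_mod_cast this.symm
  obtain ⟨a, ha⟩ : ∃ a : ℝ, a = (N.filter (fun n => ¬ (n.divisors.card : ℝ) ≤ L ^ E)).card :=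
    ⟨_, rfl⟩
  obtain ⟨b, hb⟩ : ∃ b : ℝ, b = (N.filter (fun n => (n.divisors.card : ℝ) ≤ L ^ E)).card :=
    ⟨_, rfl⟩
  rw [← ha, ← hb] at hcard
  rw [← hb]
  have ha0 : 0 ≤ a := by rw [ha]; exact Nat.cast_nonneg _
  have hb0 : 0 ≤ b := by rw [hb]; exact Nat.cast_nonneg _
  have h3 : a * (L ^ E) ^ 2 ≤ k * L ^ D := by
    refine le_trans ?_ h2
    calc a * (L ^ E) ^ 2 =
          ∑ n ∈ N.filter (fun n => ¬ (n.divisors.card : ℝ) ≤ L ^ E), (L ^ E) ^ 2 := by
          rw [Finset.sum_const, nsmul_eq_mul, ha]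
      _ ≤ ∑ n ∈ N.filter (fun n => ¬ (n.divisors.card : ℝ) ≤ L ^ E),
          (n.divisors.card : ℝ) ^ 2 := by
          apply Finset.sum_le_sum
          intro n hn
          rw [Finset.mem_filter] at hn
          exact pow_le_pow_left₀ (by positivity) (le_of_lt (not_le.mp hn.2)) 2
      _ ≤ ∑ n ∈ V, (n.divisors.card : ℝ) ^ 2 := by
          apply Finset.sum_le_sum_of_subset_of_nonneg ((Finset.filter_subset _ _).trans hN)
          intro n _ _
          positivity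
  have h4 : L ^ C * a * (2 * L ^ (C + D)) ≤ k * L ^ (C + D) := by
    calc L ^ C * a * (2 * L ^ (C + D)) ≤ L ^ C * a * (L ^ E) ^ 2 := by
          apply mul_le_mul_of_nonneg_left _ (by positivity)
          calc 2 * L ^ (C + D) ≤ L * L ^ (C + D) :=
                mul_le_mul_of_nonneg_right hL (by positivity)
            _ = L ^ E := by rw [hE]; ring
            _ ≤ (L ^ E) ^ 2 := by
                rw [← pow_mul]
                exact pow_le_pow_right₀ hL1 (by omega)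
      _ = L ^ C * (a * (L ^ E) ^ 2) := by ring
      _ ≤ L ^ C * (k * L ^ D) := mul_le_mul_of_nonneg_left h3 (by positivity)
      _ = k * L ^ (C + D) := by rw [pow_add]; ring
  have h5 : 2 * (L ^ C * a) ≤ k := by
    have h6 : 2 * (L ^ C * a) * L ^ (C + D) ≤ k * L ^ (C + D) := by
      calc 2 * (L ^ C * a) * L ^ (C + D) = L ^ C * a * (2 * L ^ (C + D)) := by ring
        _ ≤ _ := h4
    exact le_of_mul_le_mul_right h6 (by positivity)
  rw [hcard] at h1
  calc k ≤ 2 * (L ^ C * b) := by nlinarith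
    _ ≤ L * (L ^ C * b) := mul_le_mul_of_nonneg_right hL (by positivity)
    _ = L ^ (C + 1) * b := by ring

/-! ### The real form -/

theorem mainW (K0 D : ℕ) : ∃ C : ℕ, 1 ≤ C ∧ ∀ (A₀ : ℕ → Prop) (s : ℕ), Adm A₀ s →
    ∀ (k M n1 x y : ℕ), C ≤ k → k ≤ M → M ≤ 2 * k → A₀ n1 → ((n1 : ℝ) * Real.log k) ^ C ≤ k →
    CutBound A₀ s M x y →
    ∑ n ∈ Finset.Ioo x y, n.divisors.card ^ 2 ≤ K0 * M * (Nat.log 2 M) ^ D →
    (∀ Z : Finset ℕ, Z ⊆ Finset.Ioo x y → M ≤ Z.card →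
      (k : ℝ) ≤ ((n1 : ℝ) * Real.log k) ^ C *
      (Z.filter (fun n => (n.divisors.card : ℝ) ≤ ((n1 : ℝ) * Real.log k) ^ C)).card) ∧
    ∀ (G : Type) [CommGroup G] (W : ℕ → Set G), Fil W → ∀ (f : ℕ → G) (γ : G), CMG A₀ f →
    ∀ N : ℕ, (k : ℝ) * ((n1 : ℝ) * Real.log k) ^ C ≤ N → f n1 ∉ W N →
    (k : ℝ) ≤ ((n1 : ℝ) * Real.log k) ^ C * ((NG A₀ W f γ x y).filter
      (fun n => (n.divisors.card : ℝ) ≤ ((n1 : ℝ) * Real.log k) ^ C)).card := by
  classical
  obtain ⟨C, hC1, hC⟩ := fig Pool.Agent.Helper34_GG.gr2Stmt Pool.Agent.OPH.H28.ord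
    Pool.Agent.OPG.H17.bad K0 D
  obtain ⟨K, hK3, hK⟩ := Pool.Agent.Helper34_GG.log_cmp
  obtain ⟨D', hD'⟩ : ∃ D', D' = 2 * K0 + 2 * D := ⟨_, rfl⟩
  obtain ⟨C', hC'⟩ : ∃ C', C' = (2 * C + 1) + D' + 1 + K + 16 := ⟨_, rfl⟩
  refine ⟨C', by omega, ?_⟩
  intro A₀ s hA₀ k M n1 x y hk hkM hM2 hn1 hbig hcut hsum
  obtain ⟨hl, hl1⟩ := hK k (by omega)
  have hn1R : (1 : ℝ) ≤ n1 := by exact_mod_cast hA₀.pos _ hn1
  have hl2 : 2 ≤ Real.log k := by
    have hkR : (16 : ℝ) ≤ k := by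
      have : 16 ≤ k := by omega
      exact_mod_cast this
    have h16 : Real.log 16 = 4 * Real.log 2 := by
      have e : (16 : ℝ) = 2 ^ 4 := by norm_num
      rw [e, Real.log_pow]
      norm_num
    have h2 : (0.6931471803 : ℝ) < Real.log 2 := Real.log_two_gt_d9
    have h3 := Real.log_le_log (by norm_num) hkR
    linarith
  have hn0 : (0 : ℝ) ≤ (Nat.log 2 M : ℕ) := Nat.cast_nonneg _
  have hl' : ((Nat.log 2 M : ℕ) : ℝ) ≤ Real.log k ^ 2 := by
    refine le_trans ?_ hl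
    have : Nat.log 2 M ≤ Nat.log 2 (2 * k) := Nat.log_mono_right hM2
    exact_mod_cast this
  obtain ⟨L, hL⟩ : ∃ L : ℝ, L = (n1 : ℝ) * Real.log k := ⟨_, rfl⟩
  rw [← hL] at hbig ⊢
  have hL2 : 2 ≤ L := by rw [hL]; nlinarith
  have hL1 : 1 ≤ L := by linarith
  have hL0 : 0 < L := by linarith
  have hlL : Real.log k ≤ L := by rw [hL]; nlinarith
  have hkR0 : (0 : ℝ) ≤ k := Nat.cast_nonneg _
  have hkMR : (k : ℝ) ≤ M := by exact_mod_cast hkM
  have hM2R : (M : ℝ) ≤ 2 * k := by exact_mod_cast hM2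
  have h1 : ((n1 : ℝ) * (Nat.log 2 M : ℕ)) ^ C ≤ L ^ (2 * C) := by
    calc ((n1 : ℝ) * (Nat.log 2 M : ℕ)) ^ C ≤ (L ^ 2) ^ C := by
          apply pow_le_pow_left₀ (by positivity)
          rw [hL, mul_pow]
          apply mul_le_mul _ hl' hn0 (by positivity)
          nlinarith
      _ = L ^ (2 * C) := by rw [← pow_mul]
  have hsumR : ∑ n ∈ Finset.Ioo x y, (n.divisors.card : ℝ) ^ 2 ≤ k * L ^ D' := by
    have h2 : ((∑ n ∈ Finset.Ioo x y, n.divisors.card ^ 2 : ℕ) : ℝ) ≤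
        ((K0 * M * (Nat.log 2 M) ^ D : ℕ) : ℝ) := by exact_mod_cast hsum
    push_cast at h2
    refine h2.trans ?_
    have h3 : ((Nat.log 2 M : ℕ) : ℝ) ^ D ≤ L ^ (2 * D) := by
      calc ((Nat.log 2 M : ℕ) : ℝ) ^ D ≤ (Real.log k ^ 2) ^ D := pow_le_pow_left₀ hn0 hl' _
        _ = Real.log k ^ (2 * D) := by rw [← pow_mul]
        _ ≤ L ^ (2 * D) := pow_le_pow_left₀ (by linarith) hlL _
    have h4 : 2 * (K0 : ℝ) ≤ L ^ (2 * K0) := by
      have h5 : 2 * K0 ≤ 2 ^ (2 * K0) := Nat.lt_two_pow_self.le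
      have h6 : (2 * (K0 : ℝ)) ≤ 2 ^ (2 * K0) := by exact_mod_cast h5
      exact h6.trans (pow_le_pow_left₀ (by norm_num) hL2 _)
    calc (K0 : ℝ) * M * ((Nat.log 2 M : ℕ) : ℝ) ^ D ≤ (K0 : ℝ) * (2 * k) * L ^ (2 * D) := by
          apply mul_le_mul _ h3 (by positivity) (by positivity)
          exact mul_le_mul_of_nonneg_left hM2R (Nat.cast_nonneg _)
      _ = k * (2 * (K0 : ℝ)) * L ^ (2 * D) := by ring
      _ ≤ k * L ^ (2 * K0) * L ^ (2 * D) := by
          apply mul_le_mul_of_nonneg_right _ (by positivity)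
          exact mul_le_mul_of_nonneg_left h4 hkR0
      _ = k * L ^ D' := by rw [hD', pow_add]; ring
  -- the common end
  have hend : ∀ (C2 : ℕ) (Z : Finset ℕ), Z ⊆ Finset.Ioo x y → C2 ≤ 2 * C →
      (k : ℝ) ≤ L ^ C2 * Z.card →
      (k : ℝ) ≤ L ^ C' * (Z.filter (fun n => (n.divisors.card : ℝ) ≤ L ^ C')).card := by
    intro C2 Z hZ hC2 hZc
    have h5 := few (Finset.Ioo x y) Z k L C2 D' hL2 hkR0 hZ hZc hsumR
    refine h5.trans ?_
    apply mul_le_mul (pow_le_pow_right₀ hL1 (by omega)) _ (Nat.cast_nonneg _) (by positivity)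
    have h6 : (Z.filter (fun n => (n.divisors.card : ℝ) ≤ L ^ (C2 + D' + 1))).card ≤
        (Z.filter (fun n => (n.divisors.card : ℝ) ≤ L ^ C')).card := by
      apply Finset.card_le_card
      intro n hn
      rw [Finset.mem_filter] at hn ⊢
      exact ⟨hn.1, hn.2.trans (pow_le_pow_right₀ hL1 (by omega))⟩
    exact_mod_cast h6
  constructor
  · intro Z hZ hZM
    apply hend 0 Z hZ (by omega)
    rw [pow_zero, one_mul]
    have : (M : ℝ) ≤ Z.card := by exact_mod_cast hZM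
    linarith
  · intro G _ W hW f γ hf N hN hfN
    apply hend (2 * C) _ _ le_rfl
    · have h2 : (n1 * Nat.log 2 M) ^ C ≤ M := by
        have h3 : (((n1 * Nat.log 2 M) ^ C : ℕ) : ℝ) ≤ ((M : ℕ) : ℝ) := by
          push_cast
          refine h1.trans ((pow_le_pow_right₀ hL1 (by omega)).trans (hbig.trans hkMR))
        exact_mod_cast h3
      have hfM : f n1 ∉ W (M * (n1 * Nat.log 2 M) ^ C) := by
        intro h
        apply hfN
        refine hW.mono ?_ h
        have h3 : ((M * (n1 * Nat.log 2 M) ^ C : ℕ) : ℝ) ≤ (N : ℝ) := by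
          push_cast
          refine le_trans ?_ hN
          calc (M : ℝ) * ((n1 : ℝ) * (Nat.log 2 M : ℕ)) ^ C ≤ (2 * k) * L ^ (2 * C) := by
                apply mul_le_mul hM2R h1 (by positivity) (by positivity)
            _ ≤ (L * k) * L ^ (2 * C) := by
                apply mul_le_mul_of_nonneg_right _ (by positivity)
                exact mul_le_mul_of_nonneg_right hL2 hkR0
            _ = k * L ^ (2 * C + 1) := by ring
            _ ≤ k * L ^ C' :=
                mul_le_mul_of_nonneg_left (pow_le_pow_right₀ hL1 (by omega)) hkR0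
        exact_mod_cast h3
      have h3 := hC A₀ s hA₀ M n1 x y (by omega) hn1 h2 hcut hsum G W hW f γ hf hfM
      have h4 : (M : ℝ) ≤ (((n1 * Nat.log 2 M) ^ C * (NG A₀ W f γ x y).card : ℕ) : ℝ) := by
        exact_mod_cast h3
      push_cast at h4
      have h5 : ((n1 : ℝ) * (Nat.log 2 M : ℕ)) ^ C * (NG A₀ W f γ x y).card ≤
          L ^ (2 * C) * (NG A₀ W f γ x y).card :=
        mul_le_mul_of_nonneg_right h1 (Nat.cast_nonneg _)
      linarith
    · unfold NG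
      exact Finset.filter_subset _ _

/-! ### Word lengths -/

/-- products of at most `N` quotients of elements of `S` -/
def WL (S : ℕ → Prop) (N : ℕ) : Set ℚˣ :=
  {x | ∃ l : List (ℕ × ℕ), l.length ≤ N ∧ (∀ p ∈ l, S p.1 ∧ S p.2) ∧
    (l.map fun p => ((p.1 : ℕ) : ℚ) / p.2).prod = (x : ℚ)}

theorem WL_fil (S : ℕ → Prop) : Fil (WL S) where
  one := ⟨[], by simp, by simp, by simp⟩
  mul := by
    rintro m n x y ⟨l, h1, h2, h3⟩ ⟨l', h1', h2', h3'⟩
    refine ⟨l ++ l', ?_, ?_, ?_⟩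
    · rw [List.length_append]
      omega
    · intro p hp
      rw [List.mem_append] at hp
      rcases hp with hp | hp
      · exact h2 p hp
      · exact h2' p hp
    · rw [List.map_append, List.prod_append, h3, h3', Units.val_mul]
  inv := by
    rintro n x ⟨l, h1, h2, h3⟩
    refine ⟨l.map fun p => (p.2, p.1), ?_, ?_, ?_⟩
    · rw [List.length_map]
      exact h1
    · intro p hp
      rw [List.mem_map] at hp
      obtain ⟨q, hq, rfl⟩ := hp
      exact ⟨(h2 q hq).2, (h2 q hq).1⟩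
    · rw [Units.val_inv_eq_inv_val, ← h3, List.map_map]
      clear h1 h2 h3
      induction l with
      | nil => simp
      | cons a l ih =>
        rw [List.map_cons, List.prod_cons, List.map_cons, List.prod_cons, ih, mul_inv]
        congr 1
        simp [Function.comp]
  mono := by
    rintro m n hmn x ⟨l, h1, h2, h3⟩
    exact ⟨l, h1.trans hmn, h2, h3⟩

/-- the identity -/
noncomputable def fQ (n : ℕ) : ℚˣ := by
  classical
  exact if h : (n : ℚ) = 0 then 1 else Units.mk0 (n : ℚ) h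

theorem fQ_val (n : ℕ) (h : 0 < n) : ((fQ n : ℚˣ) : ℚ) = n := by
  have h' : (n : ℚ) ≠ 0 := by exact_mod_cast h.ne'
  unfold fQ
  rw [dif_neg h']
  rfl

theorem fQ_cmg {A : ℕ → Prop} {s : ℕ} (hA : Adm A s) : CMG A fQ := by
  intro a b ha hb
  apply Units.ext
  rw [Units.val_mul, fQ_val a (hA.pos _ ha), fQ_val b (hA.pos _ hb),
    fQ_val _ (Nat.mul_pos (hA.pos _ ha) (hA.pos _ hb))]
  push_cast
  ring

theorem list_prod_eq (l : List (ℕ × ℕ)) (x : ℚ) (hl : ∀ p ∈ l, 0 < p.2)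
    (h : (l.map fun p => ((p.1 : ℕ) : ℚ) / p.2).prod = x) :
    x * ((l.map fun p => p.2).prod : ℕ) = ((l.map fun p => p.1).prod : ℕ) := by
  induction l generalizing x with
  | nil =>
    simp only [List.map_nil, List.prod_nil] at h ⊢
    rw [← h]
    simp
  | cons a l ih =>
    rw [List.map_cons, List.prod_cons] at h
    have h1 := ih _ (fun p hp => hl p (List.mem_cons_of_mem _ hp)) rfl
    have ha : (0 : ℚ) < a.2 := by exact_mod_cast hl a List.mem_cons_self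
    rw [List.map_cons, List.prod_cons, List.map_cons, List.prod_cons, ← h, Nat.cast_mul,
      Nat.cast_mul, ← h1]
    field_simp

/-- the conclusion of the duality, with words written out -/
theorem words (S : ℕ → Prop) (hS : ∀ n, S n → 0 < n) (N n1 : ℕ) (hn1 : 0 < n1)
    (h : fQ n1 ∈ WL S N) :
    ∃ (r : ℕ) (a b : Fin r → ℕ), r ≤ N ∧ (∀ i, S (a i) ∧ S (b i)) ∧
      n1 * ∏ i, b i = ∏ i, a i := by
  obtain ⟨l, h1, h2, h3⟩ := h
  rw [fQ_val n1 hn1] at h3
  refine ⟨l.length, fun i => (l.get i).1, fun i => (l.get i).2, h1, fun i => h2 _ (l.get_mem i),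
    ?_⟩
  have h4 := list_prod_eq l _ (fun p hp => hS _ (h2 p hp).2) h3
  have e1 : ∏ i, (l.get i).1 = (l.map fun p => p.1).prod := by
    rw [← List.prod_ofFn]
    congr 1
    apply List.ext_get <;> simp
  have e2 : ∏ i, (l.get i).2 = (l.map fun p => p.2).prod := by
    rw [← List.prod_ofFn]
    congr 1
    apply List.ext_get <;> simp
  rw [e1, e2]
  exact_mod_cast h4

/-- the discrete filtration -/
theorem discr {G : Type} [CommGroup G] : Fil (fun _ : ℕ => ({1} : Set G)) where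
  one := rfl
  mul := by
    intro m n x y hx hy
    rw [Set.mem_singleton_iff] at hx hy ⊢
    rw [hx, hy, mul_one]
  inv := by
    intro n x hx
    rw [Set.mem_singleton_iff] at hx ⊢
    rw [hx, inv_one]
  mono := fun _ => subset_rfl

/-- both conclusions for one interval -/
theorem both (K0 D : ℕ) : ∃ C : ℕ, 16 ≤ C ∧ ∀ (A₀ : ℕ → Prop) (s : ℕ), Adm A₀ s →
    ∀ (k M n1 x y : ℕ), C ≤ k → k ≤ M → M ≤ 2 * k → A₀ n1 → ((n1 : ℝ) * Real.log k) ^ C ≤ k →
    CutBound A₀ s M x y →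
    ∑ n ∈ Finset.Ioo x y, n.divisors.card ^ 2 ≤ K0 * M * (Nat.log 2 M) ^ D →
    (∃ Z : Finset ℕ, Z ⊆ Finset.Ioo x y ∧ M ≤ Z.card ∧ ∀ n ∈ Z, A₀ n) →
    (∀ B : Finset ℕ, ((n1 : ℝ) * Real.log k) ^ C * B.card < k →
      ∃ (r : ℕ) (a b : Fin r → ℕ), (r : ℝ) ≤ k * ((n1 : ℝ) * Real.log k) ^ C ∧
        (∀ i, (x < a i ∧ a i < y ∧ A₀ (a i) ∧ a i ∉ B ∧
            ((a i).divisors.card : ℝ) ≤ ((n1 : ℝ) * Real.log k) ^ C) ∧
          (x < b i ∧ b i < y ∧ A₀ (b i) ∧ b i ∉ B ∧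
            ((b i).divisors.card : ℝ) ≤ ((n1 : ℝ) * Real.log k) ^ C)) ∧
        n1 * ∏ i, b i = ∏ i, a i) ∧
    ∀ (G : Type) [CommGroup G] (f : ℕ → G) (γ : G), CMG A₀ f → f n1 ≠ 1 →
      (k : ℝ) ≤ ((n1 : ℝ) * Real.log k) ^ C * (Set.ncard {n : ℕ | x < n ∧ n < y ∧ A₀ n ∧
        f n ≠ γ ∧ (n.divisors.card : ℝ) ≤ ((n1 : ℝ) * Real.log k) ^ C} : ℝ) := by
  classical
  obtain ⟨C, hC1, hC⟩ := mainW K0 D
  refine ⟨C + 16, by omega, ?_⟩
  intro A₀ s hA₀ k M n1 x y hk hkM hM2 hn1 hbig hcut hsum hZ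
  have hn1R : (1 : ℝ) ≤ n1 := by exact_mod_cast hA₀.pos _ hn1
  have hl2 : 2 ≤ Real.log k := by
    have hkR : (16 : ℝ) ≤ k := by
      have : 16 ≤ k := by omega
      exact_mod_cast this
    have h16 : Real.log 16 = 4 * Real.log 2 := by
      have e : (16 : ℝ) = 2 ^ 4 := by norm_num
      rw [e, Real.log_pow]
      norm_num
    have h2 : (0.6931471803 : ℝ) < Real.log 2 := Real.log_two_gt_d9
    have h3 := Real.log_le_log (by norm_num) hkR
    linarith
  obtain ⟨L, hL⟩ : ∃ L : ℝ, L = (n1 : ℝ) * Real.log k := ⟨_, rfl⟩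
  rw [← hL] at hbig ⊢
  have hL2 : 2 ≤ L := by rw [hL]; nlinarith
  have hL1 : 1 ≤ L := by linarith
  have hL0 : 0 < L := by linarith
  have hkR1 : (1 : ℝ) ≤ k := by
    have : 1 ≤ k := by omega
    exact_mod_cast this
  have hCC : L ^ C ≤ L ^ (C + 16) := pow_le_pow_right₀ hL1 (by omega)
  obtain ⟨key0, key⟩ := hC A₀ s hA₀ k M n1 x y (by omega) hkM hM2 hn1
    (by rw [← hL]; exact hCC.trans hbig) hcut hsum
  rw [← hL] at key0 key
  constructor
  · intro B hB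
    -- the set of generators
    obtain ⟨S, hS⟩ : ∃ S : ℕ → Prop, ∀ n, S n ↔ (x < n ∧ n < y ∧ A₀ n ∧ n ∉ B ∧
      (n.divisors.card : ℝ) ≤ L ^ (C + 16)) := ⟨_, fun _ => Iff.rfl⟩
    -- large sets are not contained in `B`
    have hout : ∀ X : Finset ℕ, (k : ℝ) ≤ L ^ C * X.card → ∃ n ∈ X, n ∉ B := by
      intro X hX
      by_contra hcon
      push Not at hcon
      have h1 : X.card ≤ B.card := Finset.card_le_card hcon
      have h2 : (X.card : ℝ) ≤ B.card := by exact_mod_cast h1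
      have h3 : L ^ C * X.card ≤ L ^ (C + 16) * B.card :=
        mul_le_mul hCC h2 (Nat.cast_nonneg _) (by positivity)
      linarith
    obtain ⟨Z, hZ1, hZ2, hZ3⟩ := hZ
    obtain ⟨n0, hn0, hn0B⟩ := hout _ (key0 Z hZ1 hZ2)
    rw [Finset.mem_filter] at hn0
    have hSn0 : S n0 := by
      rw [hS]
      have h1 := Finset.mem_Ioo.mp (hZ1 hn0.1)
      exact ⟨h1.1, h1.2, hZ3 _ hn0.1, hn0B, hn0.2.trans hCC⟩
    obtain ⟨N, hN⟩ : ∃ N : ℕ, N = ⌈(k : ℝ) * L ^ C⌉₊ := ⟨_, rfl⟩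
    have hN1 : (k : ℝ) * L ^ C ≤ N := by rw [hN]; exact Nat.le_ceil _
    have hN2 : (N : ℝ) ≤ k * L ^ (C + 16) := by
      have h1 : (N : ℝ) < k * L ^ C + 1 := by
        rw [hN]
        exact Nat.ceil_lt_add_one (by positivity)
      have h2 : (1 : ℝ) ≤ k * L ^ C := by
        have := one_le_pow₀ hL1 (n := C)
        nlinarith
      calc (N : ℝ) ≤ 2 * (k * L ^ C) := by linarith
        _ ≤ L * (k * L ^ C) := mul_le_mul_of_nonneg_right hL2 (by positivity)
        _ = k * L ^ (C + 1) := by ring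
        _ ≤ k * L ^ (C + 16) :=
            mul_le_mul_of_nonneg_left (pow_le_pow_right₀ hL1 (by omega)) (by linarith)
    have hmem : fQ n1 ∈ WL S N := by
      by_contra hne
      have h1 := key ℚˣ (WL S) (WL_fil S) fQ (fQ n0) (fQ_cmg hA₀) N hN1 hne
      obtain ⟨n, hn, hnB⟩ := hout _ h1
      unfold NG at hn
      rw [Finset.mem_filter, Finset.mem_filter, Finset.mem_Ioo] at hn
      obtain ⟨⟨h2, h3, h4⟩, h5⟩ := hn
      apply h4
      refine ⟨[(n, n0)], by simp, ?_, ?_⟩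
      · intro p hp
        rw [List.mem_singleton] at hp
        rw [hp]
        refine ⟨?_, hSn0⟩
        change S n
        rw [hS]
        exact ⟨h2.1, h2.2, h3, hnB, h5.trans hCC⟩
      · rw [List.map_singleton, List.prod_singleton, Units.val_div_eq_div_val,
          fQ_val n (hA₀.pos _ h3), fQ_val n0 (hA₀.pos _ (hZ3 _ hn0.1))]
    obtain ⟨r, a, b, hr, hab, he⟩ := words S (fun n hn => by
      rw [hS] at hn
      exact hA₀.pos _ hn.2.2.1) N n1 (hA₀.pos _ hn1) hmem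
    refine ⟨r, a, b, ?_, ?_, he⟩
    · have : (r : ℝ) ≤ N := by exact_mod_cast hr
      linarith
    · intro i
      have := hab i
      rw [hS, hS] at this
      exact this
  · intro G _ f γ hf hf1
    have h1 := key G (fun _ => {1}) discr f γ hf ⌈(k : ℝ) * L ^ C⌉₊ (Nat.le_ceil _) hf1
    have hfin : {n : ℕ | x < n ∧ n < y ∧ A₀ n ∧ f n ≠ γ ∧
        (n.divisors.card : ℝ) ≤ L ^ (C + 16)}.Finite :=
      (Finset.Ioo x y).finite_toSet.subset (fun n hn => by
        rw [Finset.mem_coe, Finset.mem_Ioo]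
        exact ⟨hn.1, hn.2.1⟩)
    have h2 : ((NG A₀ (fun _ => {1}) f γ x y).filter
        (fun n => (n.divisors.card : ℝ) ≤ L ^ C)).card ≤
        Set.ncard {n : ℕ | x < n ∧ n < y ∧ A₀ n ∧ f n ≠ γ ∧
          (n.divisors.card : ℝ) ≤ L ^ (C + 16)} := by
      rw [← Set.ncard_coe_finset]
      apply Set.ncard_le_ncard _ hfin
      intro n hn
      rw [Finset.mem_coe, Finset.mem_filter] at hn
      obtain ⟨hn, hd⟩ := hn
      unfold NG at hn
      rw [Finset.mem_filter, Finset.mem_Ioo, Set.mem_singleton_iff, div_eq_one] at hn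
      exact ⟨hn.1.1, hn.1.2, hn.2.1, hn.2.2, hd.trans hCC⟩
    have h3 : (((NG A₀ (fun _ => {1}) f γ x y).filter
        (fun n => (n.divisors.card : ℝ) ≤ L ^ C)).card : ℝ) ≤
        (Set.ncard {n : ℕ | x < n ∧ n < y ∧ A₀ n ∧ f n ≠ γ ∧
          (n.divisors.card : ℝ) ≤ L ^ (C + 16)} : ℝ) := by exact_mod_cast h2
    exact h1.trans (mul_le_mul hCC h3 (Nat.cast_nonneg _) (by positivity))

end Pool.Agent.Helper34_GW
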