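import Pool.Agent.Helper34_GW.Final

/-!
# The two kinds of intervals
-/

set_option autoImplicit false

namespace Pool.Agent.Helper34_GW

open Finset Pool.Agent.OPH

theorem mem_CU {A : ℕ → Prop} {s x y a b u : ℕ} :
    u ∈ CU A s x y a b ↔ u ∈ Finset.Icc a b ∧ A u ∧ Cut A s x y u := by
  classical
  unfold CU
  exact Finset.mem_filter

theorem admOdd : Adm Odd 2 where
  pos := fun _ h => h.pos
  mul := fun _ _ ha hb => ha.mul hb
  odd := fun _ h => h
  step := fun _ h => h.add_even even_two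
  conn := by
    intro n n' hn hn' hle
    obtain ⟨x, hx⟩ := hn
    obtain ⟨y, hy⟩ := hn'
    exact ⟨y - x, by omega⟩
  s1 := by norm_num

theorem admPos : Adm (fun n => 0 < n) 1 where
  pos := fun _ h => h
  mul := fun _ _ ha hb => Nat.mul_pos ha hb
  odd := fun _ h => h.pos
  step := fun _ _ => Nat.succ_pos _
  conn := by
    intro n n' _ _ hle
    exact ⟨n' - n, by omega⟩
  s1 := le_rfl

theorem cutOdd (k : ℕ) : CutBound Odd 2 (2 * k) ((2 * k - 1) ^ 2) ((2 * k + 1) ^ 2) := by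
  classical
  intro A t hA ht h1 h2
  refine le_trans ?_ (Pool.Agent.Helper34_GG.ct3Stmt (2 * k) A t (even_two_mul k) hA ht h1 h2)
  have h : (CU Odd 2 ((2 * k - 1) ^ 2) ((2 * k + 1) ^ 2) (2 * k + A) (2 * k + 2 * A)).card ≤
      (Pool.Agent.OPG.CU (2 * k) (2 * k + A) (2 * k + 2 * A)).card := by
    apply Finset.card_le_card
    intro u hu
    have hu := mem_CU.mp hu
    unfold Pool.Agent.OPG.CU
    rw [Finset.mem_filter]
    exact hu
  exact_mod_cast h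

theorem cutAll (m : ℕ) : CutBound (fun n => 0 < n) 1 m (m ^ 2) ((m + 1) ^ 2) := by
  classical
  intro A t hA ht h1 h2
  refine le_trans ?_ (Pool.Agent.Helper34_GL.ct3Stmt m A t hA ht h1 h2)
  have h : (CU (fun n => 0 < n) 1 (m ^ 2) ((m + 1) ^ 2) (m + A) (m + 2 * A)).card ≤
      (Pool.Agent.LGD.CU m (m + A) (m + 2 * A)).card := by
    apply Finset.card_le_card
    intro u hu
    have hu := mem_CU.mp hu
    unfold Pool.Agent.LGD.CU
    rw [Finset.mem_filter]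
    refine ⟨hu.1, ?_⟩
    intro v hv
    apply hu.2.2 v _ hv
    rcases Nat.eq_zero_or_pos v with hv0 | hv0
    · rw [hv0, Nat.mul_zero] at hv
      exact absurd hv (Nat.not_lt_zero _)
    · exact hv0
  exact_mod_cast h

theorem second : ∃ D : ℕ, 1 ≤ D ∧ (∀ k : ℕ, 2 ≤ k →
    ∑ n ∈ Finset.Ioo ((2 * k - 1) ^ 2) ((2 * k + 1) ^ 2), n.divisors.card ^ 2 ≤
      (D * 2 * 2 ^ D) * (2 * k) * (Nat.log 2 (2 * k)) ^ D) ∧
    ∀ m : ℕ, 4 ≤ m →
    ∑ n ∈ Finset.Ioo (m ^ 2) ((m + 1) ^ 2), n.divisors.card ^ 2 ≤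
      (D * 2 * 2 ^ D) * m * (Nat.log 2 m) ^ D := by
  obtain ⟨D, hD1, hDV⟩ := Pool.Agent.Helper34_GG.dv2Stmt
  refine ⟨D, hD1, ?_, ?_⟩
  · intro k hk
    refine (hDV (2 * k) (by omega)).trans ?_
    apply Nat.mul_le_mul_right
    apply Nat.mul_le_mul_right
    rw [mul_assoc]
    exact Nat.le_mul_of_pos_right _ (by positivity)
  · intro m hm
    have hlog : Nat.log 2 (m + 1) ≤ 2 * Nat.log 2 m := by
      have e1 : Nat.log 2 (m + 1) ≤ Nat.log 2 (m * 2) := Nat.log_mono_right (by omega)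
      have e2 : Nat.log 2 (m * 2) = Nat.log 2 m + 1 := Nat.log_mul_base (by norm_num) (by omega)
      have e3 : 1 ≤ Nat.log 2 m := Nat.log_pos (by norm_num) (by omega)
      omega
    calc ∑ n ∈ Finset.Ioo (m ^ 2) ((m + 1) ^ 2), n.divisors.card ^ 2 ≤
          ∑ n ∈ Finset.Ioo ((m + 1 - 1) ^ 2) ((m + 1 + 1) ^ 2), n.divisors.card ^ 2 := by
          apply Finset.sum_le_sum_of_subset
          intro x hx
          rw [Finset.mem_Ioo] at hx ⊢
          refine ⟨by simpa using hx.1, hx.2.trans_le (Nat.pow_le_pow_left (by omega) 2)⟩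
      _ ≤ D * (m + 1) * (Nat.log 2 (m + 1)) ^ D := hDV (m + 1) (by omega)
      _ ≤ D * (2 * m) * (2 * Nat.log 2 m) ^ D :=
          Nat.mul_le_mul (Nat.mul_le_mul_left _ (by omega)) (Nat.pow_le_pow_left hlog _)
      _ = (D * 2 * 2 ^ D) * m * (Nat.log 2 m) ^ D := by rw [mul_pow]; ring

/-- both conclusions for the interval `(x, y)` and the admissible integers -/
def Concl (A₀ : ℕ → Prop) (C k n1 x y : ℕ) : Prop :=
  (∀ B : Finset ℕ, ((n1 : ℝ) * Real.log k) ^ C * B.card < k →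
      ∃ (r : ℕ) (a b : Fin r → ℕ), (r : ℝ) ≤ k * ((n1 : ℝ) * Real.log k) ^ C ∧
        (∀ i, (x < a i ∧ a i < y ∧ A₀ (a i) ∧ a i ∉ B ∧
            ((a i).divisors.card : ℝ) ≤ ((n1 : ℝ) * Real.log k) ^ C) ∧
          (x < b i ∧ b i < y ∧ A₀ (b i) ∧ b i ∉ B ∧
            ((b i).divisors.card : ℝ) ≤ ((n1 : ℝ) * Real.log k) ^ C)) ∧
        n1 * ∏ i, b i = ∏ i, a i) ∧
    ∀ (G : Type) [CommGroup G] (f : ℕ → G) (γ : G), (∀ a b : ℕ, A₀ a → A₀ b → f (a * b) = f a * f b) →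
      f n1 ≠ 1 →
      (k : ℝ) ≤ ((n1 : ℝ) * Real.log k) ^ C * (Set.ncard {n : ℕ | x < n ∧ n < y ∧ A₀ n ∧
        f n ≠ γ ∧ (n.divisors.card : ℝ) ≤ ((n1 : ℝ) * Real.log k) ^ C} : ℝ)

theorem main : ∃ C : ℕ, 1 ≤ C ∧
    (∀ k n1 : ℕ, C ≤ k → Odd n1 → ((n1 : ℝ) * Real.log k) ^ C ≤ k →
      Concl Odd C k n1 ((2 * k - 1) ^ 2) ((2 * k + 1) ^ 2)) ∧
    ∀ m n1 : ℕ, C ≤ m → 0 < n1 → ((n1 : ℝ) * Real.log m) ^ C ≤ m →
      Concl (fun n => 0 < n) C m n1 (m ^ 2) ((m + 1) ^ 2) := by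
  obtain ⟨D, hD1, hs1, hs2⟩ := second
  obtain ⟨C, hC1, hC⟩ := both (D * 2 * 2 ^ D) D
  refine ⟨C, by omega, ?_, ?_⟩
  · intro k n1 hk hn1 hbig
    apply hC Odd 2 admOdd k (2 * k) n1 ((2 * k - 1) ^ 2) ((2 * k + 1) ^ 2) hk (by omega) le_rfl
      hn1 hbig (cutOdd k) (hs1 k (by omega))
    refine ⟨(Finset.range (2 * k)).image (fun i => (2 * k - 1) ^ 2 + 2 * (i + 1)), ?_, ?_, ?_⟩
    · intro n hn
      rw [Finset.mem_image] at hn
      obtain ⟨i, hi, rfl⟩ := hn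
      rw [Finset.mem_range] at hi
      rw [Finset.mem_Ioo]
      refine ⟨by omega, ?_⟩
      obtain ⟨w, hw⟩ : ∃ w, 2 * k = w + 1 := ⟨2 * k - 1, by omega⟩
      rw [hw] at hi ⊢
      have e1 : w + 1 - 1 = w := by omega
      rw [e1]
      nlinarith
    · rw [Finset.card_image_of_injective _ (fun i j hij => by
        have h1 : (2 * k - 1) ^ 2 + 2 * (i + 1) = (2 * k - 1) ^ 2 + 2 * (j + 1) := hij
        omega), Finset.card_range]
    · intro n hn
      rw [Finset.mem_image] at hn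
      obtain ⟨i, hi, rfl⟩ := hn
      have h1 : Odd (2 * k - 1) := ⟨k - 1, by omega⟩
      exact h1.pow.add_even (even_two_mul _)
  · intro m n1 hm hn1 hbig
    apply hC (fun n => 0 < n) 1 admPos m m n1 (m ^ 2) ((m + 1) ^ 2) hm le_rfl (by omega)
      hn1 hbig (cutAll m) (hs2 m (by omega))
    refine ⟨(Finset.range m).image (fun i => m ^ 2 + (i + 1)), ?_, ?_, ?_⟩
    · intro n hn
      rw [Finset.mem_image] at hn
      obtain ⟨i, hi, rfl⟩ := hn
      rw [Finset.mem_range] at hi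
      rw [Finset.mem_Ioo]
      refine ⟨by omega, ?_⟩
      nlinarith
    · rw [Finset.card_image_of_injective _ (fun i j hij => by
        have h1 : m ^ 2 + (i + 1) = m ^ 2 + (j + 1) := hij
        omega), Finset.card_range]
    · intro n hn
      rw [Finset.mem_image] at hn
      obtain ⟨i, hi, rfl⟩ := hn
      omega

end Pool.Agent.Helper34_GW
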