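import Pool.Agent.Helper34_GW.Pa
import Pool.Agent.Helper34_GG.Ma

/-!
# The main inequality

After `Pool/Agent/Helper34_GG/Ma.lean`.
-/

set_option autoImplicit false

namespace Pool.Agent.Helper34_GW

open Finset Pool.Agent.OPH

/-- the bound for the number of cuts -/
def CutBound (A₀ : ℕ → Prop) (s M x y : ℕ) : Prop := ∀ A t : ℕ, 100 ≤ A → 10 ≤ t →
  A * t ^ 2 ≤ M → M < (A + 1) * t ^ 2 →
  ((CU A₀ s x y (M + A) (M + 2 * A)).card : ℝ) ≤ 1 + (t : ℝ) ^ 4 + 280 * A / (t : ℝ) ^ 3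

/-- the main inequality -/
theorem mag (hG : Gr2Stmt) (hO : OrdStmt) (hbad : Pool.Agent.OPG.BadStmt) :
    ∃ C : ℕ, 1 ≤ C ∧ ∀ (A₀ : ℕ → Prop) (s : ℕ), Adm A₀ s →
    ∀ (M n1 x y : ℕ), C ≤ M → A₀ n1 → (n1 * Nat.log 2 M) ^ C ≤ M → CutBound A₀ s M x y →
    ∀ (G : Type) [CommGroup G] (W : ℕ → Set G), Fil W → ∀ (f : ℕ → G) (γ : G), CMG A₀ f →
    f n1 ∉ W (M * (n1 * Nat.log 2 M) ^ C) →
    M ≤ 16320 * (n1 * Nat.log 2 M) ^ C * DG A₀ W f γ x y := by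
  obtain ⟨C1, hC1, hC⟩ := pag hG hO hbad
  obtain ⟨L0, hL0⟩ : ∃ L0 : ℕ, L0 = 10 ^ 8 := ⟨_, rfl⟩
  obtain ⟨N, hN⟩ : ∃ N : ℕ, N = 2 ^ L0 := ⟨_, rfl⟩
  obtain ⟨E, hE⟩ : ∃ E : ℕ, E = 50 * (C1 + 1) + N := ⟨_, rfl⟩
  refine ⟨E, by omega, ?_⟩
  intro A₀ s hA₀ M n1 x y hM hn1 hbig hCt3 G _ W hW f γ hf hf1
  obtain ⟨k, hk⟩ : ∃ k, k = Nat.log 2 M := ⟨_, rfl⟩
  rw [← hk] at hbig hf1
  have hn1pos : 1 ≤ n1 := hA₀.pos _ hn1
  have hNM : 2 ^ L0 ≤ M := by omega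
  have hL : L0 ≤ k := by
    rw [hk]
    exact Nat.le_log_of_pow_le (by norm_num) hNM
  have hk8 : 10 ^ 8 ≤ k := by rw [← hL0]; exact hL
  have hk1 : 1 ≤ k := le_trans (by norm_num) hk8
  have hnk : 1 ≤ n1 * k := Nat.one_le_iff_ne_zero.mpr (by positivity)
  obtain ⟨P, hP⟩ : ∃ P : ℕ, P = 2 * (n1 * k ^ C1) + 1 := ⟨_, rfl⟩
  have hkC1 : k ≤ k ^ C1 := Nat.le_self_pow (by omega) k
  have hnkC : k ≤ n1 * k ^ C1 := hkC1.trans (Nat.le_mul_of_pos_left _ hn1pos)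
  have hP8 : 10 ^ 8 ≤ P := by omega
  have hPE : P ≤ (n1 * k) ^ (C1 + 1) := by
    have h1 : P ≤ 3 * (n1 * k ^ C1) := by omega
    have h3 : 3 ≤ k := le_trans (by norm_num) hk8
    calc P ≤ 3 * (n1 * k ^ C1) := h1
      _ ≤ k * (n1 * k ^ C1) := Nat.mul_le_mul_right _ h3
      _ = n1 * k ^ (C1 + 1) := by ring
      _ ≤ n1 ^ (C1 + 1) * k ^ (C1 + 1) :=
          Nat.mul_le_mul_right _ (Nat.le_self_pow (by omega) n1)
      _ = (n1 * k) ^ (C1 + 1) := by rw [mul_pow]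
  have hP50 : P ^ 50 ≤ M := by
    calc P ^ 50 ≤ ((n1 * k) ^ (C1 + 1)) ^ 50 := Nat.pow_le_pow_left hPE 50
      _ = (n1 * k) ^ (50 * (C1 + 1)) := by
          rw [← pow_mul, mul_comm (C1 + 1) 50]
      _ ≤ (n1 * k) ^ E := Nat.pow_le_pow_right hnk (by omega)
      _ ≤ M := hbig
  have hP1 : 1 ≤ P := by omega
  have hPpos : 0 < P ^ 10 := Nat.pos_of_ne_zero (by positivity)
  obtain ⟨A, hA⟩ : ∃ A : ℕ, A = M / P ^ 10 := ⟨_, rfl⟩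
  have hA1 : A * P ^ 10 ≤ M := hA ▸ Nat.div_mul_le_self M _
  have hA2 : M < (A + 1) * P ^ 10 := by
    rw [hA]
    exact Nat.lt_mul_of_div_lt (Nat.lt_succ_self _) hPpos
  have hA40 : P ^ 40 ≤ A := by
    rw [hA, Nat.le_div_iff_mul_le hPpos, ← pow_add]
    exact hP50
  have hPA : P ≤ A := (Nat.le_self_pow (by norm_num) P).trans hA40
  have hA100 : 100 ≤ A := le_trans (le_trans (by norm_num) hP8) hPA
  have hs10 : 10 ≤ P ^ 5 :=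
    le_trans (le_trans (by norm_num) hP8) (Nat.le_self_pow (by norm_num) P)
  have hP40M : P ^ 40 ≤ M := (Nat.pow_le_pow_right hP1 (by norm_num)).trans hP50
  have hf1' : f n1 ∉ W (61440 * (M * P ^ 15)) := by
    intro h
    apply hf1
    refine hW.mono ?_ h
    have h1 : 61440 ≤ P := le_trans (by norm_num) hP8
    calc 61440 * (M * P ^ 15) ≤ P * (M * P ^ 15) := Nat.mul_le_mul_right _ h1
      _ = M * P ^ 16 := by ring
      _ ≤ M * ((n1 * k) ^ (C1 + 1)) ^ 16 :=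
          Nat.mul_le_mul_left _ (Nat.pow_le_pow_left hPE 16)
      _ = M * (n1 * k) ^ (16 * (C1 + 1)) := by rw [← pow_mul, mul_comm (C1 + 1) 16]
      _ ≤ M * (n1 * k) ^ E := Nat.mul_le_mul_left _ (Nat.pow_le_pow_right hnk (by omega))
  have i1 := hC A₀ s hA₀ P M A n1 (by omega) hn1 (by rw [hP, hk]) hP40M hA1 hA2 G W hW f hf hf1'
  have i2 := chg hA₀ hW f γ x y (M + A) (M + 2 * A) hf
  have e10 : P ^ 10 = (P ^ 5) ^ 2 := by rw [← pow_mul]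
  have i3 := hCt3 A (P ^ 5) hA100 hs10 (by rw [← e10]; exact hA1) (by rw [← e10]; exact hA2)
  have j1 : (A : ℝ) ≤ 2040 * (P : ℝ) ^ 14 * ((HG A₀ s W f (M + A) (M + 2 * A)).card : ℝ) := by
    exact_mod_cast i1
  have j2 : ((HG A₀ s W f (M + A) (M + 2 * A)).card : ℝ) ≤
      ((CU A₀ s x y (M + A) (M + 2 * A)).card : ℝ) + 2 * ((DG A₀ W f γ x y : ℕ) : ℝ) := by
    exact_mod_cast i2
  have j3 : ((CU A₀ s x y (M + A) (M + 2 * A)).card : ℝ) ≤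
      1 + ((P : ℝ) ^ 5) ^ 4 + 280 * A / ((P : ℝ) ^ 5) ^ 3 := by
    have := i3
    push_cast at this
    exact this
  have j4 : ((10 : ℝ) ^ 8) ≤ P := by exact_mod_cast hP8
  have j5 : (P : ℝ) ^ 40 ≤ A := by exact_mod_cast hA40
  have j6 := Pool.Agent.Helper34_GG.ineq A P (DG A₀ W f γ x y : ℕ) _ _ j4 j5 j1 j2 j3
  have k6 : A ≤ 8160 * P ^ 14 * DG A₀ W f γ x y := by exact_mod_cast j6
  have k7 : M ≤ 16320 * P ^ 24 * DG A₀ W f γ x y := by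
    calc M ≤ (A + 1) * P ^ 10 := hA2.le
      _ ≤ (2 * A) * P ^ 10 := Nat.mul_le_mul_right _ (by omega)
      _ ≤ (2 * (8160 * P ^ 14 * DG A₀ W f γ x y)) * P ^ 10 :=
          Nat.mul_le_mul_right _ (Nat.mul_le_mul_left _ k6)
      _ = 16320 * P ^ 24 * DG A₀ W f γ x y := by ring
  rw [← hk]
  calc M ≤ 16320 * P ^ 24 * DG A₀ W f γ x y := k7
    _ ≤ 16320 * ((n1 * k) ^ (C1 + 1)) ^ 24 * DG A₀ W f γ x y :=
        Nat.mul_le_mul_right _ (Nat.mul_le_mul_left _ (Nat.pow_le_pow_left hPE 24))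
    _ = 16320 * (n1 * k) ^ (24 * (C1 + 1)) * DG A₀ W f γ x y := by
        rw [← pow_mul, mul_comm (C1 + 1) 24]
    _ ≤ 16320 * (n1 * k) ^ E * DG A₀ W f γ x y :=
        Nat.mul_le_mul_right _ (Nat.mul_le_mul_left _ (Nat.pow_le_pow_right hnk (by omega)))

/-- Cauchy-Schwarz -/
theorem fig (hG : Gr2Stmt) (hO : OrdStmt) (hbad : Pool.Agent.OPG.BadStmt) (K0 D : ℕ) :
    ∃ C : ℕ, 1 ≤ C ∧ ∀ (A₀ : ℕ → Prop) (s : ℕ), Adm A₀ s →
    ∀ (M n1 x y : ℕ), C ≤ M → A₀ n1 → (n1 * Nat.log 2 M) ^ C ≤ M → CutBound A₀ s M x y →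
    ∑ n ∈ Finset.Ioo x y, n.divisors.card ^ 2 ≤ K0 * M * (Nat.log 2 M) ^ D →
    ∀ (G : Type) [CommGroup G] (W : ℕ → Set G), Fil W → ∀ (f : ℕ → G) (γ : G), CMG A₀ f →
    f n1 ∉ W (M * (n1 * Nat.log 2 M) ^ C) →
    M ≤ (n1 * Nat.log 2 M) ^ C * (NG A₀ W f γ x y).card := by
  obtain ⟨C, hC1, hC⟩ := mag hG hO hbad
  obtain ⟨K, hK⟩ : ∃ K : ℕ, K = 16320 ^ 2 * K0 := ⟨_, rfl⟩
  obtain ⟨N, hN⟩ : ∃ N : ℕ, N = 2 ^ K := ⟨_, rfl⟩
  obtain ⟨E, hE⟩ : ∃ E : ℕ, E = 2 * C + D + 1 + N + 4 := ⟨_, rfl⟩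
  refine ⟨E, by omega, ?_⟩
  intro A₀ s hA₀ M n1 x y hM hn1 hbig hCt3 h2 G _ W hW f γ hf hf1
  have hn1pos : 1 ≤ n1 := hA₀.pos _ hn1
  have hM4 : 4 ≤ M := by omega
  obtain ⟨k, hk⟩ : ∃ k, k = Nat.log 2 M := ⟨_, rfl⟩
  have hKk : K ≤ k := by
    rw [hk]
    apply Nat.le_log_of_pow_le (by norm_num)
    rw [← hN]
    omega
  have hk1 : 1 ≤ k := by
    rw [hk]
    exact Nat.log_pos (by norm_num) (by omega)
  rw [← hk] at hbig hf1 ⊢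
  have hnk : 1 ≤ n1 * k := Nat.one_le_iff_ne_zero.mpr (by positivity)
  have hkn : k ≤ n1 * k := Nat.le_mul_of_pos_left _ hn1pos
  have h1 := hC A₀ s hA₀ M n1 x y (by omega) hn1 (by
    rw [← hk]
    exact (Nat.pow_le_pow_right hnk (by omega)).trans hbig) hCt3 G W hW f γ hf (by
    rw [← hk]
    intro h
    exact hf1 (hW.mono (Nat.mul_le_mul_left _ (Nat.pow_le_pow_right hnk (by omega))) h))
  rw [← hk] at h1 h2
  have h3 : DG A₀ W f γ x y ^ 2 ≤ (NG A₀ W f γ x y).card * ∑ n ∈ NG A₀ W f γ x y, n.divisors.card ^ 2 := by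
    unfold DG
    exact sq_sum_le_card_mul_sum_sq
  have h4 : ∑ n ∈ NG A₀ W f γ x y, n.divisors.card ^ 2 ≤
      ∑ n ∈ Finset.Ioo x y, n.divisors.card ^ 2 := by
    apply Finset.sum_le_sum_of_subset
    classical
    unfold NG
    exact Finset.filter_subset _ _
  have h5 : DG A₀ W f γ x y ^ 2 ≤ (NG A₀ W f γ x y).card * (K0 * M * k ^ D) :=
    h3.trans (Nat.mul_le_mul_left _ (h4.trans h2))
  have h6 : M ^ 2 ≤ (16320 * (n1 * k) ^ C) ^ 2 * ((NG A₀ W f γ x y).card * (K0 * M * k ^ D)) := by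
    calc M ^ 2 ≤ (16320 * (n1 * k) ^ C * DG A₀ W f γ x y) ^ 2 := Nat.pow_le_pow_left h1 2
      _ = (16320 * (n1 * k) ^ C) ^ 2 * DG A₀ W f γ x y ^ 2 := by ring
      _ ≤ _ := Nat.mul_le_mul_left _ h5
  have h7 : M * M ≤ (K * (n1 * k) ^ (2 * C) * k ^ D * (NG A₀ W f γ x y).card) * M := by
    calc M * M = M ^ 2 := by ring
      _ ≤ _ := h6
      _ = _ := by rw [hK, pow_mul]; ring
  have h8 : M ≤ K * (n1 * k) ^ (2 * C) * k ^ D * (NG A₀ W f γ x y).card :=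
    Nat.le_of_mul_le_mul_right h7 (by omega)
  refine h8.trans ?_
  apply Nat.mul_le_mul_right
  calc K * (n1 * k) ^ (2 * C) * k ^ D ≤ (n1 * k) * (n1 * k) ^ (2 * C) * (n1 * k) ^ D := by
        apply Nat.mul_le_mul
        · exact Nat.mul_le_mul_right _ (hKk.trans hkn)
        · exact Nat.pow_le_pow_left hkn D
    _ = (n1 * k) ^ (2 * C + D + 1) := by
        rw [pow_succ, pow_add]
        ring
    _ ≤ (n1 * k) ^ E := Nat.pow_le_pow_right hnk (by omega)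

end Pool.Agent.Helper34_GW
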