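import Pool.Agent.Helper34_GW.Inst

/-!
# Residue classes of `Ω`
-/

set_option autoImplicit false

namespace Pool.Agent.Helper34_GW

open Finset

theorem log_pow_le (j : ℕ) : ∃ K : ℕ, ∀ k : ℕ, K ≤ k → Real.log k ^ j ≤ k := by
  have h := (Real.isLittleO_pow_log_id_atTop (n := j)).bound (c := 1) one_pos
  rw [Filter.eventually_atTop] at h
  obtain ⟨x, hx⟩ := h
  refine ⟨⌈x⌉₊ + 1, fun k hk => ?_⟩
  have h1 : x ≤ k := by
    have h2 : x ≤ ⌈x⌉₊ := Nat.le_ceil x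
    have h3 : (⌈x⌉₊ : ℝ) ≤ k := by
      have : ⌈x⌉₊ ≤ k := by omega
      exact_mod_cast this
    linarith
  have h2 := hx k h1
  rw [one_mul, Real.norm_eq_abs, id, Real.norm_eq_abs, Nat.abs_cast] at h2
  exact (le_abs_self _).trans h2

/-- the number of odd `n` in the interval with few divisors and `Ω(n)` not in a residue class -/
theorem omega_class : ∃ C : ℕ, ∀ k m a : ℕ, C ≤ k → 2 ≤ m →
    (k : ℝ) ≤ Real.log k ^ C * (Set.ncard {n : ℕ | (2 * k - 1) ^ 2 < n ∧ n < (2 * k + 1) ^ 2 ∧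
      Odd n ∧ ¬ (ArithmeticFunction.cardFactors n ≡ a [MOD m]) ∧
      (n.divisors.card : ℝ) ≤ Real.log k ^ C} : ℝ) := by
  obtain ⟨C, hC1, hC, _⟩ := main
  obtain ⟨K, hK⟩ := log_pow_le (3 * C)
  refine ⟨3 * C + K + 16, ?_⟩
  intro k m a hk hm
  have hkR : (16 : ℝ) ≤ k := by
    have : 16 ≤ k := by omega
    exact_mod_cast this
  have hl2 : 2 ≤ Real.log k := by
    have h16 : Real.log 16 = 4 * Real.log 2 := by
      have e : (16 : ℝ) = 2 ^ 4 := by norm_num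
      rw [e, Real.log_pow]
      norm_num
    have h2 : (0.6931471803 : ℝ) < Real.log 2 := Real.log_two_gt_d9
    have h3 := Real.log_le_log (by norm_num) hkR
    linarith
  have hl1 : 1 ≤ Real.log k := by linarith
  have h3 : (((3 : ℕ) : ℝ) * Real.log k) ^ C ≤ Real.log k ^ (3 * C) := by
    rw [pow_mul]
    apply pow_le_pow_left₀ (by positivity)
    push_cast
    have e1 : 3 ≤ Real.log k ^ 2 := by nlinarith
    calc (3 : ℝ) * Real.log k ≤ Real.log k ^ 2 * Real.log k :=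
          mul_le_mul_of_nonneg_right e1 (by linarith)
      _ = Real.log k ^ 3 := by ring
  have hbig := hK k (by omega)
  obtain ⟨_, h4⟩ := hC k 3 (by omega) (by decide) (h3.trans hbig)
  have : Fact (1 < m) := ⟨by omega⟩
  have h5 := h4 (Multiplicative (ZMod m))
    (fun n => Multiplicative.ofAdd ((ArithmeticFunction.cardFactors n : ℕ) : ZMod m))
    (Multiplicative.ofAdd ((a : ℕ) : ZMod m)) (by
      intro x y hx hy
      have hx0 : x ≠ 0 := hx.pos.ne'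
      have hy0 : y ≠ 0 := hy.pos.ne'
      rw [ArithmeticFunction.cardFactors_mul hx0 hy0, Nat.cast_add, ofAdd_add]) (by
      intro h
      have h6 : ((ArithmeticFunction.cardFactors 3 : ℕ) : ZMod m) = 0 :=
        Multiplicative.ofAdd.injective h
      rw [ArithmeticFunction.cardFactors_apply_prime Nat.prime_three, Nat.cast_one] at h6
      exact one_ne_zero h6)
  have h6 : ((3 : ℕ) * Real.log k : ℝ) ^ C ≤ Real.log k ^ (3 * C + K + 16) :=
    h3.trans (pow_le_pow_right₀ hl1 (by omega))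
  refine h5.trans ?_
  apply mul_le_mul h6 _ (Nat.cast_nonneg _) (by positivity)
  have h7 : Set.ncard {n : ℕ | (2 * k - 1) ^ 2 < n ∧ n < (2 * k + 1) ^ 2 ∧ Odd n ∧
      Multiplicative.ofAdd ((ArithmeticFunction.cardFactors n : ℕ) : ZMod m) ≠
        Multiplicative.ofAdd ((a : ℕ) : ZMod m) ∧
      (n.divisors.card : ℝ) ≤ ((3 : ℕ) * Real.log k : ℝ) ^ C} ≤
      Set.ncard {n : ℕ | (2 * k - 1) ^ 2 < n ∧ n < (2 * k + 1) ^ 2 ∧
        Odd n ∧ ¬ (ArithmeticFunction.cardFactors n ≡ a [MOD m]) ∧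
        (n.divisors.card : ℝ) ≤ Real.log k ^ (3 * C + K + 16)} := by
    apply Set.ncard_le_ncard
    · intro n hn
      refine ⟨hn.1, hn.2.1, hn.2.2.1, ?_, hn.2.2.2.2.trans h6⟩
      intro h
      apply hn.2.2.2.1
      rw [(ZMod.natCast_eq_natCast_iff _ _ _).mpr h]
    · exact (Finset.Ioo ((2 * k - 1) ^ 2) ((2 * k + 1) ^ 2)).finite_toSet.subset (fun n hn => by
        rw [Finset.mem_coe, Finset.mem_Ioo]
        exact ⟨hn.1, hn.2.1⟩)
  exact_mod_cast h7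

/-- the statement for all integers, without the superfluous positivity -/
theorem all_form (C m n1 : ℕ) (h : Concl (fun n => 0 < n) C m n1 (m ^ 2) ((m + 1) ^ 2)) :
    (∀ B : Finset ℕ, ((n1 : ℝ) * Real.log m) ^ C * B.card < m →
      ∃ (r : ℕ) (a b : Fin r → ℕ), (r : ℝ) ≤ m * ((n1 : ℝ) * Real.log m) ^ C ∧
        (∀ i, (m ^ 2 < a i ∧ a i < (m + 1) ^ 2 ∧ a i ∉ B ∧
            ((a i).divisors.card : ℝ) ≤ ((n1 : ℝ) * Real.log m) ^ C) ∧
          (m ^ 2 < b i ∧ b i < (m + 1) ^ 2 ∧ b i ∉ B ∧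
            ((b i).divisors.card : ℝ) ≤ ((n1 : ℝ) * Real.log m) ^ C)) ∧
        n1 * ∏ i, b i = ∏ i, a i) ∧
    ∀ (G : Type) [CommGroup G] (f : ℕ → G) (γ : G),
      (∀ a b : ℕ, 0 < a → 0 < b → f (a * b) = f a * f b) → f n1 ≠ 1 →
      (m : ℝ) ≤ ((n1 : ℝ) * Real.log m) ^ C * (Set.ncard {n : ℕ | m ^ 2 < n ∧ n < (m + 1) ^ 2 ∧
        f n ≠ γ ∧ (n.divisors.card : ℝ) ≤ ((n1 : ℝ) * Real.log m) ^ C} : ℝ) := by
  obtain ⟨h1, h2⟩ := h
  constructor
  · intro B hB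
    obtain ⟨r, a, b, hr, hab, he⟩ := h1 B hB
    refine ⟨r, a, b, hr, fun i => ?_, he⟩
    obtain ⟨⟨p1, p2, _, p3⟩, q1, q2, _, q3⟩ := hab i
    exact ⟨⟨p1, p2, p3⟩, q1, q2, q3⟩
  · intro G _ f γ hf hf1
    have h3 := h2 G f γ hf hf1
    have e : {n : ℕ | m ^ 2 < n ∧ n < (m + 1) ^ 2 ∧ 0 < n ∧ f n ≠ γ ∧
        (n.divisors.card : ℝ) ≤ ((n1 : ℝ) * Real.log m) ^ C} =
        {n : ℕ | m ^ 2 < n ∧ n < (m + 1) ^ 2 ∧ f n ≠ γ ∧
        (n.divisors.card : ℝ) ≤ ((n1 : ℝ) * Real.log m) ^ C} := by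
      ext n
      constructor
      · rintro ⟨p1, p2, _, p3⟩
        exact ⟨p1, p2, p3⟩
      · rintro ⟨p1, p2, p3⟩
        exact ⟨p1, p2, lt_of_le_of_lt (Nat.zero_le _) p1, p3⟩
    rw [← e]
    exact h3

end Pool.Agent.Helper34_GW
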