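import Pool.Agent.Helper34_GW.Base
import Pool.Agent.Helper34_GG.Path

/-!
# A closed path of ratios with a value of large word length

After `Pool/Agent/Helper34_GG/Path.lean`.
-/

set_option autoImplicit false

namespace Pool.Agent.Helper34_GW

open Finset Pool.Agent.OPG Pool.Agent.OPH Pool.Agent.Helper34_GG

theorem chainW {G : Type} [CommGroup G] {W : ℕ → Set G} (hW : Fil W) (D T : ℕ) (v : ℕ → G)
    (h : ∀ j < T, v j / (v (j + 1) * v (j + 1)) ∈ W D) (hT : v T = 1) :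
    v 0 ∈ W ((2 ^ T - 1) * D) := by
  induction T generalizing v with
  | zero =>
    rw [hT]
    exact hW.mono (Nat.zero_le _) hW.one
  | succ T ih =>
    have h1 := ih (fun j => v (j + 1)) (fun j hj => h (j + 1) (by omega)) hT
    have h1' : v 1 ∈ W ((2 ^ T - 1) * D) := h1
    have h0 := h 0 (by omega)
    have h2 := hW.mul h0 (hW.mul h1' h1')
    have e : v 0 / (v (0 + 1) * v (0 + 1)) * (v 1 * v 1) = v 0 := div_mul_cancel _ _
    rw [e] at h2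
    refine hW.mono ?_ h2
    obtain ⟨w, hw⟩ : ∃ w, 2 ^ T = w + 1 := ⟨2 ^ T - 1, by
      have := Nat.two_pow_pos T
      omega⟩
    rw [pow_succ, hw]
    have e2 : (w + 1) * 2 - 1 = 1 + (w + w) := by omega
    have e3 : w + 1 - 1 = w := by omega
    rw [e2, e3, Nat.add_mul, Nat.add_mul, Nat.one_mul]

/-- one of the closed paths has a value different from one -/
theorem lists (hG : Gr2Stmt) : ∃ C : ℕ, 1 ≤ C ∧ ∀ (A₀ : ℕ → Prop) (s : ℕ), Adm A₀ s →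
    ∀ (l n1 : ℕ), 1 ≤ l → A₀ n1 →
    Real.log n1 ≤ l → ∀ (G : Type) [CommGroup G] (W : ℕ → Set G), Fil W → ∀ (D : ℕ) (f : ℕ → G),
    CMG A₀ f → f n1 ∉ W (2 ^ l * (2 * l) * D) →
    ∃ Λ : List (ℕ × ℕ), Λ.length ≤ 3 * (C * l ^ C) ∧
      (∀ x ∈ Λ, A₀ x.1 ∧ A₀ x.2 ∧ x.1 ≤ n1 * (C * l ^ C) ∧ x.2 ≤ n1 * (C * l ^ C)) ∧
      |lsum Λ| ≤ 3 / 2 ^ l ∧ vl f Λ ∉ W D := by
  obtain ⟨C, hC1, hC⟩ := hG
  refine ⟨C, hC1, ?_⟩
  intro A₀ s hA₀ l n1 hl hn1 hlog G _ W hW D f hf hfn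
  have hn1pos : 1 ≤ n1 := hA₀.pos _ hn1
  have hn1R : (1 : ℝ) ≤ n1 := by exact_mod_cast hn1pos
  have hlog0 : 0 ≤ Real.log n1 := Real.log_nonneg hn1R
  obtain ⟨B, hB⟩ : ∃ B, B = C * l ^ C := ⟨_, rfl⟩
  have hB1 : 1 ≤ B := by
    rw [hB]
    exact Nat.one_le_iff_ne_zero.mpr (by positivity)
  rw [← hB]
  -- the lists
  have hex : ∀ j : ℕ, ∃ L : List (ℕ × ℕ), L.length ≤ B ∧
      (∀ x ∈ L, Odd x.1 ∧ Odd x.2 ∧ x.1 ≤ B ∧ x.2 ≤ B) ∧
      0 ≤ Real.log n1 / 2 ^ j - lsum L ∧ Real.log n1 / 2 ^ j - lsum L ≤ 1 / 2 ^ l := by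
    intro j
    have h2 : (1 : ℝ) ≤ 2 ^ j := one_le_pow₀ (by norm_num)
    have h3 := hC l hl (Real.log n1 / 2 ^ j) (by positivity)
      ((div_le_self hlog0 h2).trans hlog)
    rw [← hB] at h3
    exact h3
  choose L hL1 hL2 hL3 hL4 using hex
  obtain ⟨t, ht⟩ : ∃ t, t = Nat.log 2 l + 1 := ⟨_, rfl⟩
  have hlt : l ≤ 2 ^ t := by
    rw [ht]
    exact (Nat.lt_pow_succ_log_self (by norm_num) l).le
  have htl : 2 ^ t ≤ 2 * l := by
    rw [ht, pow_succ, mul_comm]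
    exact Nat.mul_le_mul_left _ (Nat.pow_log_le_self 2 (by omega))
  obtain ⟨T, hT⟩ : ∃ T, T = l + t := ⟨_, rfl⟩
  -- the modified lists
  obtain ⟨A, hA⟩ : ∃ A : ℕ → List (ℕ × ℕ), ∀ j, A j = if j = 0 then [(n1, 1)] else
      if j = T then [] else L j :=
    ⟨fun j => if j = 0 then [(n1, 1)] else if j = T then [] else L j, fun _ => rfl⟩
  have hA0 : A 0 = [(n1, 1)] := by rw [hA, if_pos rfl]
  have hAT : A T = [] := by rw [hA, if_neg (by omega), if_pos rfl]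
  have hlen : ∀ j, (A j).length ≤ B := by
    intro j
    rw [hA]
    split_ifs
    · simpa using hB1
    · simp
    · exact hL1 j
  have hent : ∀ j, ∀ x ∈ A j, A₀ x.1 ∧ A₀ x.2 ∧ x.1 ≤ n1 * B ∧ x.2 ≤ n1 * B := by
    intro j x hx
    rw [hA] at hx
    split_ifs at hx
    · rw [List.mem_singleton] at hx
      rw [hx]
      refine ⟨hn1, hA₀.odd 1 odd_one, ?_, ?_⟩
      · exact Nat.le_mul_of_pos_right _ hB1
      · change 1 ≤ n1 * B
        exact Nat.one_le_iff_ne_zero.mpr (by positivity)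
    · exact absurd hx (List.not_mem_nil)
    · obtain ⟨a, b, c, d⟩ := hL2 j x hx
      exact ⟨hA₀.odd _ a, hA₀.odd _ b, c.trans (Nat.le_mul_of_pos_left _ hn1pos),
        d.trans (Nat.le_mul_of_pos_left _ hn1pos)⟩
  have h2l : (0 : ℝ) < 1 / 2 ^ l := by positivity
  have hdev : ∀ j, 0 ≤ Real.log n1 / 2 ^ j - lsum (A j) ∧
      Real.log n1 / 2 ^ j - lsum (A j) ≤ 1 / 2 ^ l := by
    intro j
    rw [hA]
    split_ifs with h0 h1
    · rw [h0]
      have e : lsum [(n1, 1)] = Real.log n1 := by simp [lsum]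
      rw [e]
      simp
    · rw [h1, hT, lsum_nil, sub_zero]
      refine ⟨by positivity, ?_⟩
      rw [div_le_div_iff₀ (by positivity) (by positivity), one_mul]
      have e1 : (l : ℝ) ≤ 2 ^ t := by exact_mod_cast hlt
      have e2 : (2 : ℝ) ^ (l + t) = 2 ^ t * 2 ^ l := by rw [pow_add, mul_comm]
      rw [e2]
      exact mul_le_mul_of_nonneg_right (hlog.trans e1) (by positivity)
    · exact ⟨hL3 j, hL4 j⟩
  -- one of the paths is not trivial
  have hf1 := hf.one hA₀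
  obtain ⟨j, hj, hv⟩ : ∃ j < T, vl f (A j) / (vl f (A (j + 1)) * vl f (A (j + 1))) ∉ W D := by
    by_contra hcon
    push Not at hcon
    have h0 := chainW hW D T (fun j => vl f (A j)) hcon (by
      change vl f (A T) = 1
      rw [hAT]
      simp [vl])
    change vl f (A 0) ∈ _ at h0
    rw [hA0] at h0
    apply hfn
    have e0 : vl f [(n1, 1)] = f n1 := by simp [vl, hf1]
    rw [e0] at h0
    refine hW.mono ?_ h0
    apply Nat.mul_le_mul_right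
    have e1 : 2 ^ T = 2 ^ l * 2 ^ t := by rw [hT, pow_add]
    have e2 : 2 ^ T ≤ 2 ^ l * (2 * l) := by
      rw [e1]
      exact Nat.mul_le_mul_left _ htl
    omega
  refine ⟨(A (j + 1) ++ A (j + 1)) ++ swp (A j), ?_, ?_, ?_, ?_⟩
  · rw [List.length_append, List.length_append]
    have e : (swp (A j)).length = (A j).length := by simp [swp]
    rw [e]
    have := hlen j
    have := hlen (j + 1)
    omega
  · intro x hx
    rw [List.mem_append, List.mem_append, or_self] at hx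
    rcases hx with hx | hx
    · exact hent _ x hx
    · unfold swp at hx
      rw [List.mem_map] at hx
      obtain ⟨y, hy, hyx⟩ := hx
      obtain ⟨a, b, c, d⟩ := hent _ y hy
      rw [← hyx]
      exact ⟨b, a, d, c⟩
  · rw [lsum_append, lsum_append, lsum_swp]
    have d1 := hdev j
    have d2 := hdev (j + 1)
    have e : Real.log n1 / 2 ^ j = 2 * (Real.log n1 / 2 ^ (j + 1)) := by
      rw [pow_succ]
      field_simp
    rw [e] at d1
    rw [abs_le]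
    have e3 : (3 : ℝ) / 2 ^ l = 3 * (1 / 2 ^ l) := by ring
    rw [e3]
    constructor
    · linarith [d1.1, d1.2, d2.1, d2.2]
    · linarith [d1.1, d1.2, d2.1, d2.2]
  · rw [vl_append, vl_append, vl_swp, ← div_eq_mul_inv]
    intro h
    apply hv
    rw [← inv_div]
    exact hW.inv h

/-- the path -/
theorem ptg (hG : Gr2Stmt) (hO : OrdStmt) : ∃ C : ℕ, 1 ≤ C ∧ ∀ (A₀ : ℕ → Prop) (s : ℕ), Adm A₀ s →
    ∀ (M n1 : ℕ), C ≤ M → A₀ n1 →
    n1 ≤ M → ∀ (G : Type) [CommGroup G] (W : ℕ → Set G), Fil W → ∀ (D' : ℕ) (f : ℕ → G),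
    CMG A₀ f → f n1 ∉ W (64 * (M * Nat.log 2 M) * D') →
    ∃ (J : ℕ) (p q : ℕ → ℕ) (c : ℕ → ℝ), J ≤ (Nat.log 2 M) ^ C ∧
      (∀ i < J, A₀ (p i) ∧ A₀ (q i) ∧ p i ≤ n1 * (Nat.log 2 M) ^ C ∧
        q i ≤ n1 * (Nat.log 2 M) ^ C) ∧
      c 0 = 1 ∧ (∀ i < J, c (i + 1) * q i = c i * p i) ∧
      (∀ i ≤ J, 1 / (n1 * (Nat.log 2 M : ℝ) ^ C) ≤ c i ∧ c i ≤ n1 * (Nat.log 2 M : ℝ) ^ C) ∧
      |c J - 1| ≤ 1 / (M : ℝ) ∧ ∏ i ∈ range J, (f (p i) / f (q i)) ∉ W D' := by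
  obtain ⟨C0, hC0, hC⟩ := lists hG
  obtain ⟨D, hD⟩ : ∃ D, D = 3 * (C0 * 2 ^ C0 + 2) := ⟨_, rfl⟩
  obtain ⟨C, hCd⟩ : ∃ C, C = C0 + 1 + 2 ^ (D + 4) := ⟨_, rfl⟩
  have hC01 : C0 + 1 ≤ C := by rw [hCd]; exact Nat.le_add_right _ _
  have hC2 : 2 ^ (D + 4) ≤ C := by rw [hCd]; exact Nat.le_add_left _ _
  refine ⟨C, by omega, ?_⟩
  intro A₀ s hA₀ M n1 hM hn1 hn1M G _ W hW D' f hf hfn
  have hMpos : M ≠ 0 := by omega
  obtain ⟨k, hk⟩ : ∃ k, k = Nat.log 2 M := ⟨_, rfl⟩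
  rw [← hk]
  have hkl : D + 4 ≤ k := by
    rw [hk]
    exact Nat.le_log_of_pow_le (by norm_num) (hC2.trans hM)
  have hMk : M < 2 ^ (k + 1) := by
    rw [hk]
    exact Nat.lt_pow_succ_log_self (by norm_num) M
  have hMR : (0 : ℝ) < M := by
    have : 0 < M := Nat.pos_of_ne_zero hMpos
    exact_mod_cast this
  have hn1pos : 1 ≤ n1 := hA₀.pos _ hn1
  have hn1R : (1 : ℝ) ≤ n1 := by exact_mod_cast hn1pos
  have hk1 : 1 ≤ k := by omega
  have hkR : (1 : ℝ) ≤ k := by exact_mod_cast hk1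
  have hlog : Real.log n1 ≤ ((k + 4 : ℕ) : ℝ) := by
    have h1 : (n1 : ℝ) ≤ 2 ^ (k + 1) := by
      have : n1 ≤ 2 ^ (k + 1) := hn1M.trans hMk.le
      exact_mod_cast this
    have h2 : Real.log n1 ≤ Real.log ((2 : ℝ) ^ (k + 1)) :=
      Real.log_le_log (by linarith) h1
    rw [Real.log_pow] at h2
    have h3 : Real.log 2 ≤ 1 := by
      have := Real.log_two_lt_d9
      linarith
    have h4 : ((k + 1 : ℕ) : ℝ) * Real.log 2 ≤ ((k + 1 : ℕ) : ℝ) * 1 :=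
      mul_le_mul_of_nonneg_left h3 (Nat.cast_nonneg _)
    push_cast at h2 h4 ⊢
    linarith
  have hfn' : f n1 ∉ W (2 ^ (k + 4) * (2 * (k + 4)) * D') := by
    intro h
    apply hfn
    refine hW.mono ?_ h
    apply Nat.mul_le_mul_right
    have h1 : 2 ^ k ≤ M := by
      rw [hk]
      exact Nat.pow_log_le_self 2 hMpos
    calc 2 ^ (k + 4) * (2 * (k + 4)) = 2 ^ k * (32 * (k + 4)) := by ring
      _ ≤ M * (64 * k) := Nat.mul_le_mul h1 (by omega)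
      _ = 64 * (M * k) := by ring
      _ = 64 * (M * Nat.log 2 M) := by rw [hk]
  obtain ⟨Λ, hlen, hprop0, hsum, hval⟩ :=
    hC A₀ s hA₀ (k + 4) n1 (by omega) hn1 hlog G W hW D' f hf hfn'
  -- sizes
  have hpow : C0 * (k + 4) ^ C0 ≤ C0 * 2 ^ C0 * k ^ C0 := by
    rw [mul_assoc, ← mul_pow]
    exact Nat.mul_le_mul_left _ (Nat.pow_le_pow_left (by omega) _)
  have hlC0 : k ≤ k ^ C0 := by
    calc k = k ^ 1 := (pow_one k).symm
      _ ≤ k ^ C0 := Nat.pow_le_pow_right hk1 hC0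
  obtain ⟨B, hB⟩ : ∃ B, B = C0 * (k + 4) ^ C0 + (k + 4) := ⟨_, rfl⟩
  have hB3 : 3 * B ≤ k ^ C := by
    calc 3 * B ≤ 3 * (C0 * 2 ^ C0 * k ^ C0 + 2 * k ^ C0) := by omega
      _ = D * k ^ C0 := by rw [hD]; ring
      _ ≤ k * k ^ C0 := Nat.mul_le_mul_right _ (by omega)
      _ = k ^ (C0 + 1) := by rw [pow_succ, mul_comm]
      _ ≤ k ^ C := Nat.pow_le_pow_right hk1 hC01
  have hB1 : 1 ≤ B := by omega
  have hBR : (1 : ℝ) ≤ B := by exact_mod_cast hB1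
  have hnB1 : (1 : ℝ) ≤ n1 * B := by nlinarith
  have h2l : (3 : ℝ) / 2 ^ (k + 4) ≤ 1 / M / 2 := by
    have h5 : (M : ℝ) ≤ 2 ^ (k + 1) := by exact_mod_cast hMk.le
    have h6 : (2 : ℝ) ^ (k + 4) = 2 ^ (k + 1) * 8 := by
      rw [show k + 4 = (k + 1) + 3 by ring, pow_add]
      norm_num
    rw [h6, div_div, div_le_div_iff₀ (by positivity) (by positivity)]
    linarith
  have h2l1 : (1 : ℝ) / M ≤ 1 := by
    rw [div_le_one hMR]
    have : 1 ≤ M := Nat.pos_of_ne_zero hMpos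
    exact_mod_cast this
  have h2l0 : (0 : ℝ) < 1 / M := by positivity
  have habs : |lsum Λ| ≤ 1 / M / 2 := hsum.trans h2l
  have hprop : ∀ x ∈ Λ, A₀ x.1 ∧ A₀ x.2 ∧ x.1 ≤ n1 * B ∧ x.2 ≤ n1 * B := by
    intro x hx
    obtain ⟨a, b, c, d⟩ := hprop0 x hx
    have e : C0 * (k + 4) ^ C0 ≤ B := by omega
    exact ⟨a, b, c.trans (Nat.mul_le_mul_left _ e), d.trans (Nat.mul_le_mul_left _ e)⟩
  have hX0 : 0 ≤ Real.log (n1 * B) := Real.log_nonneg hnB1
  have hXle : ∀ x ∈ Λ, |Real.log x.1 - Real.log x.2| ≤ Real.log (n1 * B) := by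
    intro x hx
    obtain ⟨h1, h2, h3, h4⟩ := hprop x hx
    have a1 : (1 : ℝ) ≤ x.1 := by exact_mod_cast hA₀.pos _ h1
    have a2 : (1 : ℝ) ≤ x.2 := by exact_mod_cast hA₀.pos _ h2
    have a3 : (x.1 : ℝ) ≤ n1 * B := by exact_mod_cast h3
    have a4 : (x.2 : ℝ) ≤ n1 * B := by exact_mod_cast h4
    have b1 := Real.log_nonneg a1
    have b2 := Real.log_nonneg a2
    have b3 := Real.log_le_log (by linarith) a3
    have b4 := Real.log_le_log (by linarith) a4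
    rw [abs_le]
    constructor <;> linarith
  obtain ⟨Λ', hperm, hpart⟩ := hO Λ (Real.log (n1 * B)) hX0 hXle
  have htot' : lsum Λ' = lsum Λ := lsum_perm hperm
  have hprop' : ∀ x ∈ Λ', A₀ x.1 ∧ A₀ x.2 ∧ x.1 ≤ n1 * B ∧ x.2 ≤ n1 * B :=
    fun x hx => hprop x (hperm.subset hx)
  have hlog3 : 1 ≤ Real.log 3 := by
    have h1 : Real.exp 1 ≤ 3 := by
      have := Real.exp_one_lt_d9
      linarith
    rw [← Real.log_exp 1]
    exact Real.log_le_log (Real.exp_pos 1) h1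
  have h3B : Real.log (3 * (n1 * B) : ℝ) = Real.log 3 + Real.log (n1 * B) :=
    Real.log_mul (by norm_num) (by linarith)
  have hbd : ∀ i, |lsum (Λ'.take i)| ≤ Real.log (3 * (n1 * B) : ℝ) := by
    intro i
    rw [h3B]
    have := hpart i
    linarith
  have hget : ∀ i (h : i < Λ'.length), Λ'.getD i (1, 1) = Λ'[i] := by
    intro i h
    exact List.getD_eq_getElem _ _ _
  have hmem : ∀ i < Λ'.length, Λ'.getD i (1, 1) ∈ Λ' := by
    intro i h
    rw [hget i h]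
    exact List.getElem_mem _
  have hBC : B ≤ k ^ C := by omega
  have h3BR : (3 : ℝ) * (n1 * B) ≤ n1 * (k : ℝ) ^ C := by
    have h5 : (3 : ℝ) * B ≤ (k : ℝ) ^ C := by exact_mod_cast hB3
    nlinarith
  have h3B0 : (0 : ℝ) < 3 * (n1 * B) := by linarith
  have hnBC : n1 * B ≤ n1 * k ^ C := Nat.mul_le_mul_left _ hBC
  refine ⟨Λ'.length, fun i => (Λ'.getD i (1, 1)).1, fun i => (Λ'.getD i (1, 1)).2,
    fun i => Real.exp (lsum (Λ'.take i)), ?_, ?_, ?_, ?_, ?_, ?_, ?_⟩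
  · rw [hperm.length_eq]
    have h5 : 3 * (C0 * (k + 4) ^ C0) ≤ 3 * B := by omega
    exact hlen.trans (h5.trans hB3)
  · intro i hi
    obtain ⟨a, b, c, d⟩ := hprop' _ (hmem i hi)
    exact ⟨a, b, c.trans hnBC, d.trans hnBC⟩
  · change Real.exp (lsum (Λ'.take 0)) = 1
    rw [List.take_zero, lsum_nil, Real.exp_zero]
  · intro i hi
    have hx := hprop' _ (hmem i hi)
    have hp : (0 : ℝ) < ((Λ'.getD i (1, 1)).1 : ℝ) := by exact_mod_cast hA₀.pos _ hx.1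
    have hq : (0 : ℝ) < ((Λ'.getD i (1, 1)).2 : ℝ) := by exact_mod_cast hA₀.pos _ hx.2.1
    have e : Λ'.take (i + 1) = Λ'.take i ++ [Λ'.getD i (1, 1)] := by
      rw [hget i hi]
      exact List.take_succ_eq_append_getElem _
    change Real.exp (lsum (Λ'.take (i + 1))) * ((Λ'.getD i (1, 1)).2 : ℝ)
      = Real.exp (lsum (Λ'.take i)) * ((Λ'.getD i (1, 1)).1 : ℝ)
    have e2 : lsum [Λ'.getD i (1, 1)] = Real.log ((Λ'.getD i (1, 1)).1 : ℝ)
        - Real.log ((Λ'.getD i (1, 1)).2 : ℝ) := by simp [lsum]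
    rw [e, lsum_append, e2, Real.exp_add, Real.exp_sub, Real.exp_log hp, Real.exp_log hq]
    field_simp
  · intro i _
    have hb := abs_le.mp (hbd i)
    constructor
    · change 1 / (n1 * (k : ℝ) ^ C) ≤ Real.exp (lsum (Λ'.take i))
      refine (one_div_le_one_div_of_le h3B0 h3BR).trans ?_
      rw [one_div, ← Real.exp_log h3B0, ← Real.exp_neg]
      exact Real.exp_le_exp.mpr hb.1
    · change Real.exp (lsum (Λ'.take i)) ≤ n1 * (k : ℝ) ^ C
      refine le_trans ?_ h3BR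
      calc Real.exp (lsum (Λ'.take i)) ≤ Real.exp (Real.log (3 * (n1 * B) : ℝ)) :=
            Real.exp_le_exp.mpr hb.2
        _ = 3 * (n1 * B) := Real.exp_log h3B0
  · change |Real.exp (lsum (Λ'.take Λ'.length)) - 1| ≤ _
    rw [List.take_length, htot']
    refine (Real.abs_exp_sub_one_le (by linarith)).trans ?_
    linarith
  · have e := prod_getD (fun x => f x.1 / f x.2) (1, 1) Λ'
    rw [e, (hperm.map _).prod_eq]
    exact hval

end Pool.Agent.Helper34_GW
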